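import Mathlib

set_option autoImplicit false

/-!
# Primitive inner illuminating sets in three dimensional space are finite and bounded

Linear algebra part: in a four dimensional vector space.
-/

namespace Pool.Agent.T6.H41.Illum

open Module Finset

/-- the median of three real numbers -/
noncomputable def med (w : Fin 3 → ℝ) : ℝ := max (min (w 0) (w 1)) (min (max (w 0) (w 1)) (w 2))

lemma med_neg (w : Fin 3 → ℝ) : med (-w) = - med w := by
  simp only [med, Pi.neg_apply]
  rcases le_total (w 0) (w 1) with h | h <;> rcases le_total (w 0) (w 2) with h' | h' <;>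
    rcases le_total (w 1) (w 2) with h'' | h'' <;>
    simp [h, h', h''] <;> linarith

lemma med_cont {X : Type*} [TopologicalSpace X] {f : X → Fin 3 → ℝ} (hf : Continuous f) :
    Continuous fun t => med (f t) := by
  unfold med
  have h := fun i => (continuous_apply i).comp hf
  exact ((h 0).min (h 1)).max (((h 0).max (h 1)).min (h 2))

lemma med_nonneg {w : Fin 3 → ℝ} (h : 0 ≤ med w) : ∃ i, ∀ k, k ≠ i → 0 ≤ w k := by
  unfold med at h
  rcases le_max_iff.1 h with h | h
  · rw [le_min_iff] at h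
    refine ⟨2, fun k hk => ?_⟩
    fin_cases k
    · exact h.1
    · exact h.2
    · exact absurd rfl hk
  · rw [le_min_iff, le_max_iff] at h
    rcases h.1 with h1 | h1
    · refine ⟨1, fun k hk => ?_⟩
      fin_cases k
      · exact h1
      · exact absurd rfl hk
      · exact h.2
    · refine ⟨0, fun k hk => ?_⟩
      fin_cases k
      · exact absurd rfl hk
      · exact h1
      · exact h.2

variable {V : Type*} [AddCommGroup V] [Module ℝ V]

/-- A nonnegative dependency (up to one index on each side) is trivial. -/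
lemma dep_zero {p q : Fin 3 → V} {F : Fin 3 → Fin 3 → V →ₗ[ℝ] ℝ}
    (hp0 : ∀ i j, F i j (p i) = 0) (hq0 : ∀ i j, F i j (q j) = 0)
    (hp : ∀ i j k, k ≠ i → 0 < F i j (p k)) (hq : ∀ i j l, l ≠ j → 0 < F i j (q l))
    {a b : Fin 3 → ℝ} (hab : ∑ k, a k • p k + ∑ l, b l • q l = 0)
    {i j : Fin 3} (ha : ∀ k, k ≠ i → 0 ≤ a k) (hb : ∀ l, l ≠ j → 0 ≤ b l) : a = 0 ∧ b = 0 := by
  have key : ∀ i' j', ∑ k, a k * F i' j' (p k) + ∑ l, b l * F i' j' (q l) = 0 := by
    intro i' j'
    have := congrArg (F i' j') hab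
    simpa [map_add, map_sum] using this
  have h1 := key i j
  have hA : ∀ k ∈ (Finset.univ : Finset (Fin 3)), 0 ≤ a k * F i j (p k) := by
    intro k _
    by_cases hk : k = i
    · rw [hk, hp0, mul_zero]
    · exact mul_nonneg (ha k hk) (hp i j k hk).le
  have hB : ∀ l ∈ (Finset.univ : Finset (Fin 3)), 0 ≤ b l * F i j (q l) := by
    intro l _
    by_cases hl : l = j
    · rw [hl, hq0, mul_zero]
    · exact mul_nonneg (hb l hl) (hq i j l hl).le
  have hA0 : ∑ k, a k * F i j (p k) = 0 := by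
    have := Finset.sum_nonneg hA
    have := Finset.sum_nonneg hB
    linarith
  have hB0 : ∑ l, b l * F i j (q l) = 0 := by
    have := Finset.sum_nonneg hA
    have := Finset.sum_nonneg hB
    linarith
  have ha' : ∀ k, k ≠ i → a k = 0 := by
    intro k hk
    have := (Finset.sum_eq_zero_iff_of_nonneg hA).1 hA0 k (Finset.mem_univ k)
    rcases mul_eq_zero.1 this with h | h
    · exact h
    · exact absurd h (hp i j k hk).ne'
  have hb' : ∀ l, l ≠ j → b l = 0 := by
    intro l hl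
    have := (Finset.sum_eq_zero_iff_of_nonneg hB).1 hB0 l (Finset.mem_univ l)
    rcases mul_eq_zero.1 this with h | h
    · exact h
    · exact absurd h (hq i j l hl).ne'
  have hai : a i = 0 := by
    obtain ⟨i', hi'⟩ : ∃ i' : Fin 3, i' ≠ i := exists_ne i
    have h2 := key i' j
    have e1 : ∑ k, a k * F i' j (p k) = a i * F i' j (p i) := by
      refine Finset.sum_eq_single i (fun k _ hk => ?_) (by simp)
      rw [ha' k hk, zero_mul]
    have e2 : ∑ l, b l * F i' j (q l) = 0 := by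
      refine Finset.sum_eq_zero fun l _ => ?_
      by_cases hl : l = j
      · rw [hl, hq0, mul_zero]
      · rw [hb' l hl, zero_mul]
    rw [e1, e2, add_zero] at h2
    rcases mul_eq_zero.1 h2 with h | h
    · exact h
    · exact absurd h (hp i' j i hi'.symm).ne'
  have ha0 : a = 0 := by
    funext k
    by_cases hk : k = i
    · rw [hk]; exact hai
    · exact ha' k hk
  have hbj : b j = 0 := by
    obtain ⟨j', hj'⟩ : ∃ j' : Fin 3, j' ≠ j := exists_ne j
    have h2 := key i j'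
    have e1 : ∑ k, a k * F i j' (p k) = 0 := by
      refine Finset.sum_eq_zero fun l _ => ?_
      rw [ha0]; simp
    have e2 : ∑ l, b l * F i j' (q l) = b j * F i j' (q j) := by
      refine Finset.sum_eq_single j (fun k _ hk => ?_) (by simp)
      rw [hb' k hk, zero_mul]
    rw [e1, e2, zero_add] at h2
    rcases mul_eq_zero.1 h2 with h | h
    · exact h
    · exact absurd h (hq i j' j hj'.symm).ne'
  refine ⟨ha0, ?_⟩
  funext l
  by_cases hl : l = j
  · rw [hl]; exact hbj
  · exact hb' l hl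

/-- The linear form of the fact that `K_{3,3}` is not planar. -/
theorem no_K33 [FiniteDimensional ℝ V] (hV : finrank ℝ V ≤ 4)
    {p q : Fin 3 → V} {F : Fin 3 → Fin 3 → V →ₗ[ℝ] ℝ}
    (hp0 : ∀ i j, F i j (p i) = 0) (hq0 : ∀ i j, F i j (q j) = 0)
    (hp : ∀ i j k, k ≠ i → 0 < F i j (p k)) (hq : ∀ i j l, l ≠ j → 0 < F i j (q l)) : False := by
  -- the space of dependencies
  let L : ((Fin 3 → ℝ) × (Fin 3 → ℝ)) →ₗ[ℝ] V :=
    { toFun := fun w => ∑ k, w.1 k • p k + ∑ l, w.2 l • q l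
      map_add' := by
        intro w w'
        simp only [Prod.fst_add, Prod.snd_add, Pi.add_apply, add_smul, Finset.sum_add_distrib]
        abel
      map_smul' := by
        intro c w
        simp only [Prod.smul_fst, Prod.smul_snd, Pi.smul_apply, smul_assoc, RingHom.id_apply,
          smul_add, Finset.smul_sum] }
  have hLdef : ∀ w, L w = ∑ k, w.1 k • p k + ∑ l, w.2 l • q l := fun _ => rfl
  have hne : ∀ w ∈ LinearMap.ker L, w ≠ 0 → med w.1 ≠ 0 := by
    intro w hw hw0 hm
    have hw' : ∑ k, w.1 k • p k + ∑ l, w.2 l • q l = 0 := by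
      rw [← hLdef]; exact hw
    obtain ⟨i, hi⟩ := med_nonneg (w := w.1) hm.ge
    obtain ⟨i', hi'⟩ := med_nonneg (w := -w.1) (by rw [med_neg, hm, neg_zero])
    rcases le_total 0 (med w.2) with h | h
    · obtain ⟨j, hj⟩ := med_nonneg h
      obtain ⟨h1, h2⟩ := dep_zero hp0 hq0 hp hq hw' hi hj
      exact hw0 (Prod.ext h1 h2)
    · obtain ⟨j, hj⟩ := med_nonneg (w := -w.2) (by rw [med_neg]; linarith)
      have hw'' : ∑ k, (-w.1) k • p k + ∑ l, (-w.2) l • q l = 0 := by
        simp only [Pi.neg_apply, neg_smul, Finset.sum_neg_distrib]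
        rw [← neg_add, hw', neg_zero]
      obtain ⟨h1, h2⟩ := dep_zero hp0 hq0 hp hq hw'' hi' hj
      exact hw0 (Prod.ext (neg_eq_zero.1 h1) (neg_eq_zero.1 h2))
  have hdim : 2 ≤ finrank ℝ (LinearMap.ker L) := by
    have h1 := LinearMap.finrank_range_add_finrank_ker L
    have h2 : finrank ℝ ((Fin 3 → ℝ) × (Fin 3 → ℝ)) = 6 := by
      simp [Module.finrank_prod]
    have h3 := (LinearMap.range L).finrank_le
    omega
  have hconn : IsPreconnected ({0}ᶜ : Set (LinearMap.ker L)) := by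
    refine (isConnected_compl_singleton_of_one_lt_rank ?_ 0).isPreconnected
    rw [← Module.finrank_eq_rank]
    exact_mod_cast hdim
  have hcont : Continuous fun w : LinearMap.ker L => med w.1.1 :=
    med_cont (continuous_fst.comp continuous_subtype_val)
  obtain ⟨u, hu⟩ : ∃ u : LinearMap.ker L, u ≠ 0 := by
    have : Nontrivial (LinearMap.ker L) := Module.nontrivial_of_finrank_pos (R := ℝ) (by omega)
    exact exists_ne 0
  have hu' : -u ≠ 0 := neg_ne_zero.2 hu
  have h1 := hne u.1 u.2 (fun h => hu (Subtype.ext h))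
  have hsym : med (-u).1.1 = - med u.1.1 := by
    rw [← med_neg]; rfl
  have : ∃ w ∈ ({0}ᶜ : Set (LinearMap.ker L)), med w.1.1 = 0 := by
    rcases lt_or_gt_of_ne h1 with h | h
    · have := hconn.intermediate_value (a := u) (b := -u) hu hu' hcont.continuousOn
      exact this ⟨h.le, by rw [hsym]; linarith⟩
    · have := hconn.intermediate_value (a := -u) (b := u) hu' hu hcont.continuousOn
      exact this ⟨by rw [hsym]; linarith, h.le⟩
  obtain ⟨w, hw, hw0⟩ := this
  exact hne w.1 w.2 (fun h => hw (Subtype.ext h)) hw0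

/-- The annihilator of three linearly independent vectors of a four dimensional space is a line. -/
lemma ann_three [FiniteDimensional ℝ V] (hV : finrank ℝ V = 4) {v : Fin 3 → V}
    (hv : LinearIndependent ℝ v) :
    ∃ g : V →ₗ[ℝ] ℝ, ∀ f : V →ₗ[ℝ] ℝ, (∀ i, f (v i) = 0) → ∃ t : ℝ, f = t • g := by
  have h1 : finrank ℝ (Submodule.span ℝ (Set.range v)) = 3 := by
    rw [finrank_span_eq_card hv, Fintype.card_fin]
  obtain ⟨w, hw⟩ : ∃ w, w ∉ Submodule.span ℝ (Set.range v) := by
    by_contra hcon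
    push Not at hcon
    have h2 : Submodule.span ℝ (Set.range v) = ⊤ := by
      rw [eq_top_iff]
      intro w _
      exact hcon w
    rw [h2, finrank_top, hV] at h1
    omega
  have h3 : LinearIndependent ℝ (Fin.cons w v : Fin 4 → V) :=
    linearIndependent_finCons.2 ⟨hv, hw⟩
  set b := basisOfLinearIndependentOfCardEqFinrank h3 (by rw [hV, Fintype.card_fin]) with hb
  have hb' : ∀ i, b i = (Fin.cons w v : Fin 4 → V) i := fun i => by
    rw [hb, coe_basisOfLinearIndependentOfCardEqFinrank]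
  refine ⟨b.coord 0, fun f hf => ⟨f w, ?_⟩⟩
  refine b.ext fun i => ?_
  rw [LinearMap.smul_apply, Basis.coord_apply, Basis.repr_self, smul_eq_mul]
  refine Fin.cases ?_ (fun i => ?_) i
  · rw [hb', Fin.cons_zero, Finsupp.single_eq_same, mul_one]
  · rw [hb', Fin.cons_succ, hf i, Finsupp.single_eq_of_ne (by simp [Fin.succ_ne_zero, eq_comm]),
      mul_zero]

/-- The pencil lemma: among the supporting functionals vanishing at two independent vectors
`p` and `q` two are extremal. -/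
lemma pencil [FiniteDimensional ℝ V] (hV : finrank ℝ V = 4) {ι : Type*} {x : ι → V} {o : V}
    {𝓕 : Set (V →ₗ[ℝ] ℝ)} (hx : ∀ f ∈ 𝓕, ∀ i, 0 ≤ f (x i)) (ho : ∀ f ∈ 𝓕, f o = 1)
    {p q : V} (hpq : LinearIndependent ℝ ![p, q]) (B : Finset ι)
    (hB : ∀ j ∈ B, ∃ f ∈ 𝓕, f p = 0 ∧ f q = 0 ∧ f (x j) = 0) (hne : B.Nonempty) :
    ∃ f ∈ 𝓕, ∃ g ∈ 𝓕, f p = 0 ∧ f q = 0 ∧ g p = 0 ∧ g q = 0 ∧
      ∀ j ∈ B, f (x j) = 0 ∨ g (x j) = 0 := by
  classical
  choose! f hf hfp hfq hfx using hB
  obtain ⟨j₀, hj₀⟩ := hne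
  have hind : LinearIndependent ℝ ![o, p, q] := by
    rw [show (![o, p, q] : Fin 3 → V) = Fin.cons o ![p, q] from rfl, linearIndependent_finCons]
    refine ⟨hpq, fun hmem => ?_⟩
    have h0 : ∀ w ∈ Submodule.span ℝ (Set.range ![p, q]), f j₀ w = 0 := by
      intro w hw
      induction hw using Submodule.span_induction with
      | mem x hx =>
        obtain ⟨i, rfl⟩ := hx
        fin_cases i
        · exact hfp j₀ hj₀
        · exact hfq j₀ hj₀
      | zero => exact map_zero _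
      | add x y _ _ hx hy => rw [map_add, hx, hy, add_zero]
      | smul c x _ hx => rw [map_smul, hx, smul_zero]
    have h1 := h0 o hmem
    rw [ho _ (hf j₀ hj₀)] at h1
    exact one_ne_zero h1
  obtain ⟨g, hg⟩ := ann_three hV hind
  have ht : ∀ j ∈ B, ∃ t : ℝ, f j = f j₀ + t • g := by
    intro j hj
    obtain ⟨t, ht⟩ := hg (f j - f j₀) (by
      intro i
      fin_cases i
      · simp [ho _ (hf j hj), ho _ (hf j₀ hj₀)]
      · simp [hfp j hj, hfp j₀ hj₀]
      · simp [hfq j hj, hfq j₀ hj₀])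
    exact ⟨t, by rw [← ht]; abel⟩
  choose! t ht using ht
  obtain ⟨j₁, hj₁, hmin⟩ := B.exists_min_image t ⟨j₀, hj₀⟩
  obtain ⟨j₂, hj₂, hmax⟩ := B.exists_max_image t ⟨j₀, hj₀⟩
  refine ⟨f j₁, hf j₁ hj₁, f j₂, hf j₂ hj₂, hfp j₁ hj₁, hfq j₁ hj₁, hfp j₂ hj₂, hfq j₂ hj₂, ?_⟩
  intro j hj
  have h1 := hmin j hj
  have h2 := hmax j hj
  have e : ∀ j ∈ B, ∀ y, f j y = f j₀ y + t j * g y := by
    intro j hj y
    have := congrArg (fun h : V →ₗ[ℝ] ℝ => h y) (ht j hj)
    simpa using this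
  rcases h2.eq_or_lt with h2 | h2
  · right
    rw [e j₂ hj₂, ← h2, ← e j hj]
    exact hfx j hj
  · left
    have h3 := e j hj (x j)
    have h4 := e j₁ hj₁ (x j)
    have h5 := e j₂ hj₂ (x j)
    rw [hfx j hj] at h3
    have n1 := hx _ (hf j₁ hj₁) j
    have n2 := hx _ (hf j₂ hj₂) j
    -- `(t₂ - t) f₁ + (t - t₁) f₂ = (t₂ - t₁) f_j = 0`
    have h6 : (t j₂ - t j) * f j₁ (x j) + (t j - t j₁) * f j₂ (x j) = 0 := by
      rw [h4, h5]
      linear_combination (t j₁ - t j₂) * h3
    have h7 : (t j₂ - t j) * f j₁ (x j) ≤ 0 := by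
      have := mul_nonneg (sub_nonneg.2 h1) n2
      linarith
    by_contra hne
    have : 0 < f j₁ (x j) := lt_of_le_of_ne n1 (Ne.symm hne)
    have := mul_pos (sub_pos.2 h2) this
    linarith

/-- The combinatorial data: two families of nonnegative points and supporting functionals. -/
structure Sys {V : Type*} [AddCommGroup V] [Module ℝ V] {ι : Type*} (a x : ι → V) (o : V)
    (e : V →ₗ[ℝ] ℝ) (𝓕 : Set (V →ₗ[ℝ] ℝ)) : Prop where
  na : ∀ f ∈ 𝓕, ∀ i, 0 ≤ f (a i)
  nx : ∀ f ∈ 𝓕, ∀ i, 0 ≤ f (x i)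
  ho : ∀ f ∈ 𝓕, f o = 1
  ea : ∀ i, e (a i) = 1
  ex : ∀ i, e (x i) = 1
  h1 : ∀ i j, i ≠ j → ∃ f ∈ 𝓕, f (a i) = 0 ∧ f (x j) = 0
  h2 : ∀ i, ∀ f ∈ 𝓕, f (a i) = 0 → f (x i) ≠ 0

namespace Sys

variable {ι : Type*} {a x : ι → V} {o : V} {e : V →ₗ[ℝ] ℝ} {𝓕 : Set (V →ₗ[ℝ] ℝ)}

lemma symm (S : Sys a x o e 𝓕) : Sys x a o e 𝓕 where
  na := S.nx
  nx := S.na
  ho := S.ho
  ea := S.ex
  ex := S.ea
  h1 := fun i j hij => by
    obtain ⟨f, hf, h, h'⟩ := S.h1 j i hij.symm
    exact ⟨f, hf, h', h⟩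
  h2 := fun i f hf h h' => S.h2 i f hf h' h

/-- no point is a convex combination of two others -/
lemma no_mid (S : Sys a x o e 𝓕) {l m n : ι} (hl : l ≠ m) (hn : n ≠ m) {α β : ℝ} (hα : 0 ≤ α)
    (hβ : 0 ≤ β) (hm : x m = α • x l + β • x n) : False := by
  have h1 := congrArg e hm
  rw [map_add, map_smul, map_smul, S.ex, S.ex, S.ex, smul_eq_mul, smul_eq_mul] at h1
  have hpos : 0 < α ∨ 0 < β := by
    by_contra h
    push Not at h
    linarith
  have key : ∀ l', l' ≠ m → ∀ γ δ : ℝ, ∀ n', 0 < γ → 0 ≤ δ → x m = γ • x l' + δ • x n' → False := by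
    intro l' hl' γ δ n' hγ hδ h
    obtain ⟨f, hf, hfa, hfx⟩ := S.h1 l' m hl'
    have h2 := congrArg f h
    rw [map_add, map_smul, map_smul, hfx, smul_eq_mul, smul_eq_mul] at h2
    have h3 := mul_nonneg hδ (S.nx f hf n')
    have h4 := mul_nonneg hγ.le (S.nx f hf l')
    have h5 : γ * f (x l') = 0 := by linarith
    exact S.h2 l' f hf hfa ((mul_eq_zero.1 h5).resolve_left hγ.ne')
  rcases hpos with h | h
  · exact key l hl α β n h hβ hm
  · exact key n hn β α l h hα (by rw [hm, add_comm])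

lemma x_ne (S : Sys a x o e 𝓕) {l m : ι} (hl : l ≠ m) : x l ≠ x m := by
  intro h
  exact S.no_mid (l := l) (m := m) (n := l) hl hl (α := 1) (β := 0) zero_le_one le_rfl
    (by rw [one_smul, zero_smul, add_zero, h])

lemma ind_pair {p q : V} (hp : e p = 1) (hq : e q = 1) (h : p ≠ q) :
    LinearIndependent ℝ ![p, q] := by
  rw [LinearIndependent.pair_iff]
  intro s t hst
  have h1 := congrArg e hst
  rw [map_add, map_smul, map_smul, hp, hq, map_zero, smul_eq_mul, smul_eq_mul] at h1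
  have ht : t = -s := by linarith
  rw [ht, neg_smul, ← sub_eq_add_neg, ← smul_sub] at hst
  rcases smul_eq_zero.1 hst with h2 | h2
  · exact ⟨h2, by rw [ht, h2, neg_zero]⟩
  · exact absurd (sub_eq_zero.1 h2) h

lemma ind_three (S : Sys a x o e 𝓕) {i j k : ι} (hij : i ≠ j) (hik : i ≠ k) (hjk : j ≠ k) :
    LinearIndependent ℝ ![x i, x j, x k] := by
  rw [Fintype.linearIndependent_iff]
  intro s hs
  rw [Fin.sum_univ_three] at hs
  replace hs : s 0 • x i + s 1 • x j + s 2 • x k = 0 := hs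
  have h1 := congrArg e hs
  rw [map_add, map_add, map_smul, map_smul, map_smul, S.ex, S.ex, S.ex, map_zero] at h1
  simp only [smul_eq_mul, mul_one] at h1
  -- an index whose coefficient has the sign opposite to the two others
  have key : ∀ (i j k : ι) (r s t : ℝ), i ≠ j → i ≠ k → r • x i + s • x j + t • x k = 0 → r ≠ 0 →
      s / r ≤ 0 → t / r ≤ 0 → False := by
    intro i j k r s t hij hik h hr hs ht
    refine S.no_mid (l := j) (m := i) (n := k) hij.symm hik.symm (α := -(s / r)) (β := -(t / r))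
      (by linarith) (by linarith) ?_
    have h2 : r • x i = -(s • x j) - t • x k := by
      have h3 : r • x i = (r • x i + s • x j + t • x k) - s • x j - t • x k := by abel
      rw [h3, h]; abel
    have h3 : x i = r⁻¹ • (r • x i) := by rw [smul_smul, inv_mul_cancel₀ hr, one_smul]
    rw [h3, h2, smul_sub, smul_neg, smul_smul, smul_smul, neg_smul, neg_smul, div_eq_inv_mul,
      div_eq_inv_mul]
    abel
  by_contra hcon
  push Not at hcon
  obtain ⟨i₀, hi₀⟩ := hcon
  -- cases on signs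
  have hne : ¬ (s 0 = 0 ∧ s 1 = 0 ∧ s 2 = 0) := by
    rintro ⟨h0, h1, h2⟩
    fin_cases i₀
    · exact hi₀ h0
    · exact hi₀ h1
    · exact hi₀ h2
  have e1 : s 0 • x i + s 1 • x j + s 2 • x k = 0 := hs
  have e2 : s 1 • x j + s 0 • x i + s 2 • x k = 0 := by rw [← hs]; abel
  have e3 : s 2 • x k + s 0 • x i + s 1 • x j = 0 := by rw [← hs]; abel
  have hdiv : ∀ u v : ℝ, (u ≤ 0 ∧ 0 ≤ v) ∨ (0 ≤ u ∧ v ≤ 0) → u / v ≤ 0 := by
    intro u v h
    rcases h with h | h
    · exact div_nonpos_of_nonpos_of_nonneg h.1 h.2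
    · exact div_nonpos_of_nonneg_of_nonpos h.1 h.2
  rcases lt_trichotomy (s 0) 0 with a0 | a0 | a0 <;> rcases lt_trichotomy (s 1) 0 with a1 | a1 | a1 <;>
    rcases lt_trichotomy (s 2) 0 with a2 | a2 | a2 <;>
    first
    | exact absurd (show s 0 = 0 ∧ s 1 = 0 ∧ s 2 = 0 from ⟨a0, a1, a2⟩) hne
    | (exfalso; linarith)
    | exact key i j k _ _ _ hij hik e1 (ne_of_gt a0) (hdiv _ _ (by first | exact Or.inl ⟨by linarith, by linarith⟩ | exact Or.inr ⟨by linarith, by linarith⟩)) (hdiv _ _ (by first | exact Or.inl ⟨by linarith, by linarith⟩ | exact Or.inr ⟨by linarith, by linarith⟩))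
    | exact key i j k _ _ _ hij hik e1 (ne_of_lt a0) (hdiv _ _ (by first | exact Or.inl ⟨by linarith, by linarith⟩ | exact Or.inr ⟨by linarith, by linarith⟩)) (hdiv _ _ (by first | exact Or.inl ⟨by linarith, by linarith⟩ | exact Or.inr ⟨by linarith, by linarith⟩))
    | exact key j i k _ _ _ hij.symm hjk e2 (ne_of_gt a1) (hdiv _ _ (by first | exact Or.inl ⟨by linarith, by linarith⟩ | exact Or.inr ⟨by linarith, by linarith⟩)) (hdiv _ _ (by first | exact Or.inl ⟨by linarith, by linarith⟩ | exact Or.inr ⟨by linarith, by linarith⟩))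
    | exact key j i k _ _ _ hij.symm hjk e2 (ne_of_lt a1) (hdiv _ _ (by first | exact Or.inl ⟨by linarith, by linarith⟩ | exact Or.inr ⟨by linarith, by linarith⟩)) (hdiv _ _ (by first | exact Or.inl ⟨by linarith, by linarith⟩ | exact Or.inr ⟨by linarith, by linarith⟩))
    | exact key k i j _ _ _ hik.symm hjk.symm e3 (ne_of_gt a2) (hdiv _ _ (by first | exact Or.inl ⟨by linarith, by linarith⟩ | exact Or.inr ⟨by linarith, by linarith⟩)) (hdiv _ _ (by first | exact Or.inl ⟨by linarith, by linarith⟩ | exact Or.inr ⟨by linarith, by linarith⟩))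
    | exact key k i j _ _ _ hik.symm hjk.symm e3 (ne_of_lt a2) (hdiv _ _ (by first | exact Or.inl ⟨by linarith, by linarith⟩ | exact Or.inr ⟨by linarith, by linarith⟩)) (hdiv _ _ (by first | exact Or.inl ⟨by linarith, by linarith⟩ | exact Or.inr ⟨by linarith, by linarith⟩))

/-- two different supporting functionals have at most two common zeros among the `x i` -/
lemma common_zeros [FiniteDimensional ℝ V] (hV : finrank ℝ V = 4) (S : Sys a x o e 𝓕)
    {f g : V →ₗ[ℝ] ℝ} (hf : f ∈ 𝓕) (hg : g ∈ 𝓕) (hfg : f ≠ g) {i j k : ι} (hij : i ≠ j)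
    (hik : i ≠ k) (hjk : j ≠ k) (hfi : f (x i) = 0) (hfj : f (x j) = 0) (hfk : f (x k) = 0)
    (hgi : g (x i) = 0) (hgj : g (x j) = 0) (hgk : g (x k) = 0) : False := by
  obtain ⟨h, hh⟩ := ann_three hV (S.ind_three hij hik hjk)
  obtain ⟨s, hs⟩ := hh f (by intro i; fin_cases i <;> assumption)
  obtain ⟨t, ht⟩ := hh g (by intro i; fin_cases i <;> assumption)
  have h1 := S.ho f hf
  have h2 := S.ho g hg
  rw [hs, LinearMap.smul_apply, smul_eq_mul] at h1
  rw [ht, LinearMap.smul_apply, smul_eq_mul] at h2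
  have hh0 : h o ≠ 0 := by
    intro h0
    rw [h0, mul_zero] at h1
    exact zero_ne_one h1
  have : s = t := mul_right_cancel₀ hh0 (h1.trans h2.symm)
  exact hfg (by rw [hs, ht, this])

end Sys

end Pool.Agent.T6.H41.Illum
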