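import Mathlib
import Pool.Agent.T6.H41.Illum

set_option autoImplicit false

/-!
# Primitive inner illuminating sets: the combinatorial part
-/

namespace Pool.Agent.T6.H41.Illum

open Module Finset

variable {V : Type*} [AddCommGroup V] [Module ℝ V]

namespace Sys

variable {ι : Type*} {a x : ι → V} {o : V} {e : V →ₗ[ℝ] ℝ} {𝓕 : Set (V →ₗ[ℝ] ℝ)}

open Classical in
/-- the indices `j ∈ W` such that `x j` lies in a common face with `p` and `q` -/
noncomputable def bad (x : ι → V) (𝓕 : Set (V →ₗ[ℝ] ℝ)) (W : Finset ι) (p q : V) : Finset ι :=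
  W.filter fun j => ∃ f ∈ 𝓕, f p = 0 ∧ f q = 0 ∧ f (x j) = 0

open Classical in
/-- the indices `j ∈ W` such that `x j` is a zero of `f` -/
noncomputable def zer (x : ι → V) (W : Finset ι) (f : V →ₗ[ℝ] ℝ) : Finset ι :=
  W.filter fun j => f (x j) = 0

lemma card_bad [FiniteDimensional ℝ V] (hV : finrank ℝ V = 4) (S : Sys a x o e 𝓕) {W : Finset ι}
    {c : ℕ} {p q : V} (hp : e p = 1) (hq : e q = 1) (hpq : p ≠ q)
    (hc : ∀ f ∈ 𝓕, f p = 0 → f q = 0 → (zer x W f).card ≤ c) :
    (bad x 𝓕 W p q).card ≤ 2 * c := by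
  classical
  rcases (bad x 𝓕 W p q).eq_empty_or_nonempty with h | h
  · rw [h]; simp
  · obtain ⟨f, hf, g, hg, hfp, hfq, hgp, hgq, hB⟩ := pencil hV S.nx S.ho (ind_pair hp hq hpq)
      (bad x 𝓕 W p q) (fun j hj => (Finset.mem_filter.1 hj).2) h
    have hsub : bad x 𝓕 W p q ⊆ zer x W f ∪ zer x W g := by
      intro j hj
      have hjW := (Finset.mem_filter.1 hj).1
      rw [Finset.mem_union]
      rcases hB j hj with h1 | h1
      · exact Or.inl (Finset.mem_filter.2 ⟨hjW, h1⟩)
      · exact Or.inr (Finset.mem_filter.2 ⟨hjW, h1⟩)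
    calc (bad x 𝓕 W p q).card ≤ (zer x W f ∪ zer x W g).card := Finset.card_le_card hsub
      _ ≤ (zer x W f).card + (zer x W g).card := Finset.card_union_le _ _
      _ ≤ 2 * c := by have := hc f hf hfp hfq; have := hc g hg hgp hgq; omega

/-- **The sparse lemma.** If every face which contains a point `a i`, `i ∈ W`, contains at most
`c` points `x j`, `j ∈ W`, then `W` is small. -/
theorem sparse [FiniteDimensional ℝ V] (hV : finrank ℝ V = 4) (S : Sys a x o e 𝓕) {W : Finset ι}
    {c : ℕ} (hc : ∀ f ∈ 𝓕, (∃ i ∈ W, f (a i) = 0) → (zer x W f).card ≤ c) :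
    W.card < 24 * c + 9 := by
  classical
  by_contra hcon
  push Not at hcon
  obtain ⟨T, hTW, hT⟩ := Finset.exists_subset_card_eq (show 3 ≤ W.card by omega)
  obtain ⟨i, hi⟩ : ∃ i : Fin 3 → ι, Function.Injective i ∧ ∀ k, i k ∈ T := by
    let eq := T.equivFin
    refine ⟨fun k => (eq.symm (Fin.cast hT.symm k)).1, ?_, fun k => (eq.symm _).2⟩
    intro k k' h
    have := eq.symm.injective (Subtype.ext h)
    simpa using this
  have hiW : ∀ k, i k ∈ W := fun k => hTW (hi.2 k)
  have hane : ∀ {k k' : ι}, k ≠ k' → a k ≠ a k' := fun h => S.symm.x_ne h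
  -- excluded indices
  let X0 : Finset ι := univ.image i
  let X1 : Finset ι := univ.biUnion fun k : Fin 3 => W.filter fun j => x j = a (i k)
  let X2 : Finset ι := univ.biUnion fun kk : Fin 3 × Fin 3 =>
    if kk.1 = kk.2 then ∅ else bad x 𝓕 W (a (i kk.1)) (a (i kk.2))
  let Y : ι → Finset ι := fun j => insert j (univ.biUnion fun k : Fin 3 => bad x 𝓕 W (x j) (a (i k)))
  have c0 : X0.card ≤ 3 := by
    calc X0.card ≤ (univ : Finset (Fin 3)).card := Finset.card_image_le
      _ = 3 := by simp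
  have c1 : X1.card ≤ 3 := by
    calc X1.card ≤ ∑ k : Fin 3, (W.filter fun j => x j = a (i k)).card := Finset.card_biUnion_le
      _ ≤ ∑ _k : Fin 3, 1 := by
          refine Finset.sum_le_sum fun k _ => ?_
          rw [Finset.card_le_one]
          intro j hj j' hj'
          have h1 := (Finset.mem_filter.1 hj).2
          have h2 := (Finset.mem_filter.1 hj').2
          by_contra hne
          exact S.x_ne hne (h1.trans h2.symm)
      _ = 3 := by simp
  have c2 : X2.card ≤ 6 * (2 * c) := by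
    calc X2.card ≤ ∑ kk : Fin 3 × Fin 3,
          (if kk.1 = kk.2 then ∅ else bad x 𝓕 W (a (i kk.1)) (a (i kk.2))).card :=
          Finset.card_biUnion_le
      _ ≤ ∑ kk : Fin 3 × Fin 3, (if kk.1 = kk.2 then 0 else 2 * c) := by
          refine Finset.sum_le_sum fun kk _ => ?_
          split_ifs with h
          · simp
          · refine S.card_bad hV (S.ea _) (S.ea _) (hane fun h' => h (hi.1 h')) ?_
            intro f hf h1 _
            exact hc f hf ⟨_, hiW _, h1⟩
      _ = 6 * (2 * c) := by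
          rw [Fintype.sum_prod_type]
          simp [Fin.sum_univ_three]
          ring
  have cY : ∀ j, (∀ k, x j ≠ a (i k)) → (Y j).card ≤ 6 * c + 1 := by
    intro j hj
    refine (Finset.card_insert_le _ _).trans ?_
    have : (univ.biUnion fun k : Fin 3 => bad x 𝓕 W (x j) (a (i k))).card ≤ 6 * c := by
      calc _ ≤ ∑ k : Fin 3, (bad x 𝓕 W (x j) (a (i k))).card := Finset.card_biUnion_le
        _ ≤ ∑ _k : Fin 3, 2 * c := by
            refine Finset.sum_le_sum fun k _ => ?_
            refine S.card_bad hV (S.ex _) (S.ea _) (hj k) ?_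
            intro f hf _ h1
            exact hc f hf ⟨_, hiW _, h1⟩
        _ = 6 * c := by simp; ring
    omega
  let X : Finset ι := X0 ∪ X1 ∪ X2
  have cX : X.card ≤ 12 * c + 6 := by
    have h1 := Finset.card_union_le (X0 ∪ X1) X2
    have h2 := Finset.card_union_le X0 X1
    show (X0 ∪ X1 ∪ X2).card ≤ _
    omega
  have pick : ∀ Z : Finset ι, Z.card < W.card → ∃ j ∈ W, j ∉ Z := fun Z hZ =>
    Finset.exists_mem_notMem_of_card_lt_card hZ
  obtain ⟨j0, hj0W, hj0⟩ := pick X (by omega)
  have hXne : ∀ j ∈ W, j ∉ X → ∀ k, x j ≠ a (i k) := by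
    intro j hjW hj k h
    apply hj
    show j ∈ X0 ∪ X1 ∪ X2
    rw [Finset.mem_union, Finset.mem_union]
    refine Or.inl (Or.inr ?_)
    rw [Finset.mem_biUnion]
    exact ⟨k, mem_univ _, Finset.mem_filter.2 ⟨hjW, h⟩⟩
  obtain ⟨j1, hj1W, hj1⟩ := pick (X ∪ Y j0) (by
    have h1 := Finset.card_union_le X (Y j0)
    have h2 := cY j0 (hXne j0 hj0W hj0)
    omega)
  rw [Finset.mem_union, not_or] at hj1
  obtain ⟨j2, hj2W, hj2⟩ := pick (X ∪ Y j0 ∪ Y j1) (by
    have h1 := Finset.card_union_le (X ∪ Y j0) (Y j1)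
    have h3 := Finset.card_union_le X (Y j0)
    have h2 := cY j0 (hXne j0 hj0W hj0)
    have h4 := cY j1 (hXne j1 hj1W hj1.1)
    omega)
  rw [Finset.mem_union, not_or, Finset.mem_union, not_or] at hj2
  -- the three indices
  let j : Fin 3 → ι := ![j0, j1, j2]
  have hjW : ∀ l, j l ∈ W := by
    intro l; fin_cases l
    · exact hj0W
    · exact hj1W
    · exact hj2W
  have hjX : ∀ l, j l ∉ X := by
    intro l; fin_cases l
    · exact hj0
    · exact hj1.1
    · exact hj2.1.1
  have hjY : ∀ l l', l < l' → j l' ∉ Y (j l) := by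
    intro l l' h
    fin_cases l <;> fin_cases l'
    · exact absurd h (by decide)
    · exact hj1.2
    · exact hj2.1.2
    · exact absurd h (by decide)
    · exact absurd h (by decide)
    · exact hj2.2
    · exact absurd h (by decide)
    · exact absurd h (by decide)
    · exact absurd h (by decide)
  have hij : ∀ k l, i k ≠ j l := by
    intro k l h
    apply hjX l
    show j l ∈ X0 ∪ X1 ∪ X2
    rw [Finset.mem_union, Finset.mem_union]
    exact Or.inl (Or.inl (Finset.mem_image.2 ⟨k, mem_univ _, h⟩))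
  choose F hF hFa hFx using fun k l => S.h1 (i k) (j l) (hij k l)
  refine no_K33 hV.le (p := fun k => a (i k)) (q := fun l => x (j l)) (F := F) hFa hFx ?_ ?_
  · intro k l k' hk
    refine lt_of_le_of_ne (S.na _ (hF k l) _) (fun h0 => ?_)
    apply hjX l
    show j l ∈ X0 ∪ X1 ∪ X2
    rw [Finset.mem_union]
    refine Or.inr ?_
    rw [Finset.mem_biUnion]
    refine ⟨(k', k), mem_univ _, ?_⟩
    rw [if_neg hk]
    exact Finset.mem_filter.2 ⟨hjW l, F k l, hF k l, h0.symm, hFa k l, hFx k l⟩
  · intro k l l' hl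
    refine lt_of_le_of_ne (S.nx _ (hF k l) _) (fun h0 => ?_)
    rcases lt_or_gt_of_ne hl with h | h
    · apply hjY l' l h
      refine Finset.mem_insert_of_mem ?_
      rw [Finset.mem_biUnion]
      exact ⟨k, mem_univ _, Finset.mem_filter.2 ⟨hjW l, F k l, hF k l, h0.symm, hFa k l, hFx k l⟩⟩
    · apply hjY l l' h
      refine Finset.mem_insert_of_mem ?_
      rw [Finset.mem_biUnion]
      exact ⟨k, mem_univ _, Finset.mem_filter.2 ⟨hjW l', F k l, hF k l, hFx k l, hFa k l, h0.symm⟩⟩

/-- a face contains at most `56` of the points `x j` -/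
theorem heavy [FiniteDimensional ℝ V] (hV : finrank ℝ V = 4) (S : Sys a x o e 𝓕) (W : Finset ι)
    {f : V →ₗ[ℝ] ℝ} (hf : f ∈ 𝓕) : (zer x W f).card < 57 := by
  classical
  refine S.sparse hV (W := zer x W f) (c := 2) ?_
  intro g hg hex
  obtain ⟨i, hi, hgi⟩ := hex
  have hne : g ≠ f := by
    rintro rfl
    exact S.h2 i g hg hgi (Finset.mem_filter.1 hi).2
  by_contra hcon
  push Not at hcon
  obtain ⟨i, hi, j, hj, k, hk, hij, hik, hjk⟩ := Finset.two_lt_card.1 hcon
  have hi' := Finset.mem_filter.1 hi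
  have hj' := Finset.mem_filter.1 hj
  have hk' := Finset.mem_filter.1 hk
  exact S.common_zeros hV hg hf hne hij hik hjk hi'.2 hj'.2 hk'.2 (Finset.mem_filter.1 hi'.1).2
    (Finset.mem_filter.1 hj'.1).2 (Finset.mem_filter.1 hk'.1).2

/-- the bound for the number of indices -/
theorem card_lt [FiniteDimensional ℝ V] (hV : finrank ℝ V = 4) (S : Sys a x o e 𝓕)
    (W : Finset ι) : W.card < 1353 := by
  have := S.sparse hV (W := W) (c := 56) (fun f hf _ => by
    have := S.heavy hV W hf
    omega)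
  omega

end Sys

end Pool.Agent.T6.H41.Illum
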