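import Mathlib
import Pool.Agent.T6.H41.Illum2

set_option autoImplicit false

/-!
# Primitive inner illuminating sets of convex bodies in three-space are bounded

Let `A` be a primitive inner illuminating set of `K` and `x a` a boundary point which is
illuminated by `a` only. Then `x a` and `b` lie in a common face of `K` if and only if `b ≠ a`.
(1) Nonplanarity of `K_{3,3}`, linear form: the affine dependencies of six points `p i`, `q j` of
three-space form a space of dimension at least two; if all pairs `p i`, `q j` are edges of a convex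
polytope with these vertices then the median of the three coefficients of the `p i` does not vanish
on nonzero dependencies, which contradicts connectedness.
(2) Two faces have at most two common points `x a`, and the faces through two points have only two
extremal members (pencil lemma). So if each face contains few of the points, three points `b` and
three points `x a` as in (1) can be chosen one after another; this is applied twice.
-/

namespace Pool.Agent.T6.H41.Illum

open Module

/-- Euclidean three-space -/
abbrev E3 := EuclideanSpace ℝ (Fin 3)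

/-- the normalized supporting functionals of `K` -/
def supp (K : Set E3) (o : E3) : Set ((E3 × ℝ) →ₗ[ℝ] ℝ) :=
  {f | (∀ y ∈ K, 0 ≤ f (y, 1)) ∧ f (o, 1) = 1}

/-- A functional in `supp K o` is positive at the interior points. -/
lemma supp_pos {K : Set E3} {o : E3} {f : (E3 × ℝ) →ₗ[ℝ] ℝ} (hf : f ∈ supp K o) {y : E3}
    (hy : y ∈ interior K) : 0 < f (y, 1) := by
  refine lt_of_le_of_ne (hf.1 y (interior_subset hy)) (fun h0 => ?_)
  -- a point slightly beyond `y`
  have hc : Continuous fun t : ℝ => y + t • (y - o) := by fun_prop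
  have h1 : ∀ᶠ t in nhds (0 : ℝ), y + t • (y - o) ∈ interior K := by
    apply hc.continuousAt.eventually_mem
    rw [zero_smul, add_zero]
    exact isOpen_interior.mem_nhds hy
  obtain ⟨δ, hδ, hδ'⟩ := Metric.eventually_nhds_iff.1 h1
  have h2 : y + (δ / 2) • (y - o) ∈ interior K := hδ' (by
    rw [Real.dist_eq, sub_zero, abs_of_pos (by linarith)]; linarith)
  have h3 := hf.1 _ (interior_subset h2)
  have e : ((y + (δ / 2) • (y - o), 1) : E3 × ℝ) = (1 + δ / 2) • (y, 1) - (δ / 2) • (o, 1) := by
    rw [Prod.smul_mk, Prod.smul_mk, Prod.mk_sub_mk]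
    refine Prod.ext ?_ ?_
    · simp only
      rw [add_smul, one_smul, smul_sub]
      abel
    · simp only [smul_eq_mul]
      ring
  rw [e, map_sub, map_smul, map_smul, ← h0, hf.2, smul_zero, smul_eq_mul] at h3
  linarith

/-- There is a natural number N such that for every compact convex set with nonempty interior in 3-space, every primitive inner illuminating set of it (a boundary subset illuminating from inside, no proper subset of which does) has at most N elements. -/
theorem main :
    ∃ N : ℕ, ∀ K : Set (EuclideanSpace ℝ (Fin 3)),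
      IsCompact K → Convex ℝ K → (interior K).Nonempty →
      ∀ A : Set (EuclideanSpace ℝ (Fin 3)),
        (A ⊆ frontier K ∧
          ∀ x ∈ frontier K, ∃ a ∈ A, ∃ ε : ℝ, 0 < ε ∧ ε < 1 ∧
            (1 - ε) • x + ε • a ∈ interior K) →
        (∀ B : Set (EuclideanSpace ℝ (Fin 3)), B ⊆ A → B ≠ A →
          ¬ (B ⊆ frontier K ∧
            ∀ x ∈ frontier K, ∃ b ∈ B, ∃ ε : ℝ, 0 < ε ∧ ε < 1 ∧
              (1 - ε) • x + ε • b ∈ interior K)) →
        A.encard ≤ (N : ℕ∞) := by
  refine ⟨1353, fun K hK hKc hKi A hA hprim => ?_⟩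
  obtain ⟨o, ho⟩ := hKi
  have hfr : ∀ y ∈ frontier K, y ∈ K := fun y hy => hK.isClosed.frontier_subset hy
  -- the private point of each element of `A`
  have hx : ∀ a ∈ A, ∃ x ∈ frontier K,
      (∀ b ∈ A, b ≠ a → ∀ ε : ℝ, 0 < ε → ε < 1 → (1 - ε) • x + ε • b ∉ interior K) ∧
      ∃ ε : ℝ, 0 < ε ∧ ε < 1 ∧ (1 - ε) • x + ε • a ∈ interior K := by
    intro a ha
    have h1 := hprim (A \ {a}) Set.sdiff_subset (by
      intro h
      have : a ∈ A \ {a} := by rw [h]; exact ha
      exact this.2 rfl)
    have h2 : ¬ ∀ x ∈ frontier K, ∃ b ∈ A \ {a}, ∃ ε : ℝ, 0 < ε ∧ ε < 1 ∧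
        (1 - ε) • x + ε • b ∈ interior K := fun h => h1 ⟨Set.sdiff_subset.trans hA.1, h⟩
    push Not at h2
    obtain ⟨x, hx, h3⟩ := h2
    refine ⟨x, hx, fun b hb hba ε h0 h1 => h3 b ⟨hb, hba⟩ ε h0 h1, ?_⟩
    obtain ⟨b, hb, ε, h0, h1, h4⟩ := hA.2 x hx
    by_cases hba : b = a
    · exact ⟨ε, h0, h1, by rw [← hba]; exact h4⟩
    · exact absurd h4 (h3 b ⟨hb, hba⟩ ε h0 h1)
  choose! x hxf hxn hxi using hx
  by_contra hcon
  push Not at hcon
  obtain ⟨T, hTA, hT⟩ := Set.exists_subset_encard_eq hcon.le
  have hTfin : T.Finite := Set.finite_of_encard_eq_coe hT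
  -- the system
  have S : Sys (V := E3 × ℝ) (ι := A) (fun i => (i.1, 1)) (fun i => (x i.1, 1)) (o, 1)
      (LinearMap.snd ℝ E3 ℝ) (supp K o) :=
    { na := fun f hf i => hf.1 _ (hfr _ (hA.1 i.2))
      nx := fun f hf i => hf.1 _ (hfr _ (hxf _ i.2))
      ho := fun f hf => hf.2
      ea := fun i => rfl
      ex := fun i => rfl
      h1 := by
        intro i j hij
        have hne : i.1 ≠ j.1 := fun h => hij (Subtype.ext h)
        set m : E3 := (1 / 2 : ℝ) • x j.1 + (1 / 2 : ℝ) • i.1 with hm
        have hmn : m ∉ interior K := by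
          have := hxn j.1 j.2 i.1 i.2 hne (1 / 2) (by norm_num) (by norm_num)
          rwa [show (1 - 1 / 2 : ℝ) = 1 / 2 by norm_num] at this
        obtain ⟨φ, hφ⟩ := geometric_hahn_banach_open_point hKc.interior isOpen_interior hmn
        have hφK : ∀ y ∈ K, φ y ≤ φ m := by
          intro y hy
          have hcl : y ∈ closure (interior K) := by
            rw [hKc.closure_interior_eq_closure_of_nonempty_interior ⟨o, ho⟩]
            exact subset_closure hy
          exact closure_minimal (fun z hz => (hφ z hz).le)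
            (isClosed_le φ.continuous continuous_const) hcl
        have hd : 0 < φ m - φ o := sub_pos.2 (hφ o ho)
        let f : (E3 × ℝ) →ₗ[ℝ] ℝ :=
          (φ m - φ o)⁻¹ • (φ m • LinearMap.snd ℝ E3 ℝ - φ.toLinearMap ∘ₗ LinearMap.fst ℝ E3 ℝ)
        have hf : ∀ y : E3, f (y, 1) = (φ m - φ o)⁻¹ * (φ m - φ y) := by
          intro y
          simp [f]
        have hfm : ∀ y ∈ K, 0 ≤ f (y, 1) := by
          intro y hy
          rw [hf]
          exact mul_nonneg (inv_nonneg.2 hd.le) (sub_nonneg.2 (hφK y hy))
        have e1 : φ m = (1 / 2) * φ (x j.1) + (1 / 2) * φ i.1 := by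
          rw [hm, map_add, map_smul, map_smul, smul_eq_mul, smul_eq_mul]
        have g1 := hφK _ (hfr _ (hxf _ j.2))
        have g2 := hφK _ (hfr _ (hA.1 i.2))
        refine ⟨f, ⟨hfm, ?_⟩, ?_, ?_⟩
        · rw [hf, inv_mul_cancel₀ hd.ne']
        · rw [hf, show φ m - φ i.1 = 0 by linarith, mul_zero]
        · rw [hf, show φ m - φ (x j.1) = 0 by linarith, mul_zero]
      h2 := by
        intro i f hf h1 h2
        obtain ⟨ε, h0, h1', h3⟩ := hxi i.1 i.2
        have h4 := supp_pos hf h3
        have e : (((1 - ε) • x i.1 + ε • i.1, 1) : E3 × ℝ) =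
            (1 - ε) • (x i.1, 1) + ε • (i.1, 1) := by
          rw [Prod.smul_mk, Prod.smul_mk, Prod.mk_add_mk]
          refine Prod.ext rfl ?_
          simp only [smul_eq_mul]
          ring
        rw [e, map_add, map_smul, map_smul, h1, h2, smul_zero, smul_zero, add_zero] at h4
        exact lt_irrefl _ h4 }
  have hV : finrank ℝ (E3 × ℝ) = 4 := by
    rw [Module.finrank_prod, finrank_euclideanSpace_fin, finrank_self]
  classical
  have hfin : (T : Set E3).Finite := hTfin
  let W : Finset A := hfin.toFinset.subtype (· ∈ A)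
  have hW : W.card = 1353 := by
    have h1 : W.card = hfin.toFinset.card := by
      rw [Finset.card_subtype]
      congr 1
      refine Finset.filter_true_of_mem fun y hy => hTA ?_
      simpa using hy
    rw [h1]
    have h2 : (hfin.toFinset.card : ℕ∞) = T.encard := by
      rw [hfin.encard_eq_coe_toFinset_card]
    rw [hT] at h2
    exact_mod_cast h2
  have := S.card_lt hV W
  omega

end Pool.Agent.T6.H41.Illum
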