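import Pool.Agent.Helper481.MB3

/-!
# The equality case of Macbeath's theorem for determinants, part 1

A body for which the inequality is an equality cannot be enlarged; so each of its boundary points
belongs to a maximizing tuple of vectors.
-/

set_option autoImplicit false
open MeasureTheory Set Module Filter Topology Metric TopologicalSpace
open scoped ENNReal RealInnerProductSpace

namespace Pool.Agent.T6.H41.MM

open Pool.Agent.Helper481.RH Pool.Agent.Helper481.MB

variable {m : ℕ}

/-- Euclidean space -/
abbrev EE (m : ℕ) := EuclideanSpace ℝ (Fin (m + 1))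

lemma adet_nonneg (v : Fin (m + 1) → EE m) : 0 ≤ adet v := abs_nonneg _

lemma adet_update_comb (v : Fin (m + 1) → EE m) (i : Fin (m + 1)) (a q : EE m) {s t : ℝ}
    (hs : 0 ≤ s) (ht : 0 ≤ t) :
    adet (Function.update v i (s • a + t • q)) ≤
      s * adet (Function.update v i a) + t * adet (Function.update v i q) := by
  unfold adet
  rw [AlternatingMap.map_update_add, AlternatingMap.map_update_smul,
    AlternatingMap.map_update_smul, smul_eq_mul, smul_eq_mul]
  refine (abs_add_le _ _).trans ?_
  rw [abs_mul, abs_mul, abs_of_nonneg hs, abs_of_nonneg ht]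

lemma adet_update_smul (v : Fin (m + 1) → EE m) (i : Fin (m + 1)) (a : EE m) {s : ℝ}
    (hs : 0 ≤ s) :
    adet (Function.update v i (s • a)) = s * adet (Function.update v i a) := by
  unfold adet
  rw [AlternatingMap.map_update_smul, smul_eq_mul, abs_mul, abs_of_nonneg hs]

lemma adet_eq_zero (v : Fin (m + 1) → EE m) {i j : Fin (m + 1)} (h : v i = v j) (hij : i ≠ j) :
    adet v = 0 := by
  unfold adet
  rw [AlternatingMap.map_eq_zero_of_eq _ v h hij, abs_zero]

lemma adet_swap (v : Fin (m + 1) → EE m) (i j : Fin (m + 1)) :
    adet (v ∘ Equiv.swap i j) = adet v := by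
  by_cases hij : i = j
  · subst hij
    rw [Equiv.swap_self]
    rfl
  · unfold adet
    rw [AlternatingMap.map_swap _ v hij, abs_neg]

/-- the bodies for which Macbeath's inequality is an equality -/
structure IsEq (L : Set (EE m)) (D : ℝ) : Prop where
  compact : IsCompact L
  convex : Convex ℝ L
  int : (interior L).Nonempty
  prop : PropD L D
  vol : volume L = kap (m + 1) * ENNReal.ofReal D
  pos : 0 < D

/-- Every boundary point of an extremal body belongs to a maximizing tuple. -/
theorem IsEq.exists_tuple {L : Set (EE m)} {D : ℝ} (h : IsEq L D) {p : EE m} (hp : p ∈ L)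
    (hpb : ∀ ε : ℝ, 0 < ε → (1 + ε) • p ∉ L) :
    ∃ v : Fin (m + 1) → EE m, (∀ i, v i ∈ L) ∧ v 0 = p ∧ adet v = D := by
  -- a maximizer among the tuples with first vector `p`
  have hcpt : IsCompact {v : Fin (m + 1) → EE m | (∀ i, v i ∈ L) ∧ v 0 = p} := by
    have h1 : IsCompact (Set.univ.pi (fun _ : Fin (m + 1) => L)) :=
      isCompact_univ_pi fun _ => h.compact
    have h2 : {v : Fin (m + 1) → EE m | (∀ i, v i ∈ L) ∧ v 0 = p} =
        Set.univ.pi (fun _ : Fin (m + 1) => L) ∩ {v | v 0 = p} := by
      ext v
      simp only [mem_ofPred_eq, mem_inter_iff, mem_univ_pi]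
    rw [h2]
    exact h1.inter_right (isClosed_eq (continuous_apply 0) continuous_const)
  have hne : {v : Fin (m + 1) → EE m | (∀ i, v i ∈ L) ∧ v 0 = p}.Nonempty :=
    ⟨fun _ => p, fun _ => hp, rfl⟩
  obtain ⟨v, ⟨hvL, hv0⟩, hmax⟩ := hcpt.exists_isMaxOn hne adet_continuous.continuousOn
  refine ⟨v, hvL, hv0, ?_⟩
  by_contra hcon
  have hlt : adet v < D := lt_of_le_of_ne (h.prop v hvL) hcon
  -- the enlarged body
  obtain ⟨ε, hε, hεD⟩ : ∃ ε : ℝ, 0 < ε ∧ (1 + ε) * adet v ≤ D := by
    refine ⟨(D - adet v) / (adet v + 1), by have := adet_nonneg v; have : 0 < adet v + 1 := by linarith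
                                            exact div_pos (by linarith) this, ?_⟩
    have h0 := adet_nonneg v
    have h1 : 0 < adet v + 1 := by linarith
    rw [add_mul, one_mul, div_mul_eq_mul_div]
    have h2 : (D - adet v) * adet v / (adet v + 1) ≤ D - adet v := by
      rw [div_le_iff₀ h1]
      nlinarith
    linarith
  set q : EE m := (1 + ε) • p with hq
  have hqL : q ∉ L := hpb ε hε
  set L' : Set (EE m) := convexHull ℝ (L ∪ {q}) with hL'
  have hLL' : L ⊆ L' := subset_union_left.trans (subset_convexHull ℝ _)
  have hqL' : q ∈ L' := subset_convexHull ℝ _ (Or.inr rfl)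
  have hL'c : IsCompact L' :=
    isCompact_convexHull_union h.compact isCompact_singleton h.convex (convex_singleton q)
  have hmem : ∀ w ∈ L', ∃ a ∈ L, ∃ s t : ℝ, 0 ≤ s ∧ 0 ≤ t ∧ s + t = 1 ∧ w = s • a + t • q := by
    intro w hw
    rw [hL', h.convex.convexHull_union (convex_singleton q) ⟨p, hp⟩ (singleton_nonempty q),
      mem_convexJoin] at hw
    obtain ⟨a, ha, b, hb, s, t, hs, ht, hst, hw⟩ := hw
    rw [mem_singleton_iff] at hb
    subst hb
    exact ⟨a, ha, s, t, hs, ht, hst, hw.symm⟩
  have hbase : ∀ w : Fin (m + 1) → EE m, (∀ i, w i ∈ L ∨ w i = q) → adet w ≤ D := by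
    intro w hw
    by_cases h1 : ∀ i, w i ∈ L
    · exact h.prop w h1
    push Not at h1
    obtain ⟨i, hi⟩ := h1
    have hiq : w i = q := (hw i).resolve_left hi
    by_cases h2 : ∃ j, j ≠ i ∧ w j = q
    · obtain ⟨j, hj, hjq⟩ := h2
      rw [adet_eq_zero w (hjq.trans hiq.symm) hj]
      exact h.pos.le
    · push Not at h2
      have h3 : ∀ j, j ≠ i → w j ∈ L := fun j hj => (hw j).resolve_right (h2 j hj)
      rw [← adet_swap w 0 i]
      set w' := w ∘ Equiv.swap 0 i with hw'
      have h4 : w' 0 = q := by simp [hw', hiq]
      have h5 : ∀ j, j ≠ 0 → w' j ∈ L := by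
        intro j hj
        apply h3
        intro h6
        apply hj
        have : Equiv.swap 0 i (Equiv.swap 0 i j) = Equiv.swap 0 i i := by rw [h6]
        simpa using this
      have h6 : w' = Function.update w' 0 ((1 + ε) • p) := by
        rw [← hq, ← h4, Function.update_eq_self]
      rw [h6, adet_update_smul w' 0 p (by linarith)]
      refine le_trans ?_ hεD
      refine mul_le_mul_of_nonneg_left ?_ (by linarith)
      refine hmax ⟨fun j => ?_, by simp⟩
      by_cases hj : j = 0
      · subst hj
        simpa using hp
      · rw [Function.update_of_ne hj]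
        exact h5 j hj
  have hPD : PropD L' D := by
    have key : ∀ S : Finset (Fin (m + 1)), ∀ w : Fin (m + 1) → EE m, (∀ i ∈ S, w i ∈ L') →
        (∀ i, i ∉ S → w i ∈ L ∨ w i = q) → adet w ≤ D := by
      intro S
      induction S using Finset.induction_on with
      | empty => intro w _ h2; exact hbase w fun i => h2 i (Finset.notMem_empty i)
      | insert i S hiS ih =>
        intro w h1 h2
        obtain ⟨a, ha, s, t, hs, ht, hst, hw⟩ := hmem (w i) (h1 i (Finset.mem_insert_self i S))
        have e : w = Function.update w i (s • a + t • q) := by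
          rw [← hw, Function.update_eq_self]
        rw [e]
        refine (adet_update_comb w i a q hs ht).trans ?_
        have h3 : ∀ z, (z ∈ L ∨ z = q) → adet (Function.update w i z) ≤ D := by
          intro z hz
          apply ih
          · intro j hj
            have hji : j ≠ i := fun h => hiS (h ▸ hj)
            rw [Function.update_of_ne hji]
            exact h1 j (Finset.mem_insert_of_mem hj)
          · intro j hj
            by_cases hji : j = i
            · subst hji
              rw [Function.update_self]
              exact hz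
            · rw [Function.update_of_ne hji]
              exact h2 j (by rw [Finset.mem_insert]; tauto)
        have h4 := h3 a (Or.inl ha)
        have h5 := h3 q (Or.inr rfl)
        calc s * adet (Function.update w i a) + t * adet (Function.update w i q)
            ≤ s * D + t * D := by gcongr
          _ = D := by rw [← add_mul, hst, one_mul]
    intro w hw
    exact key Finset.univ w (fun i _ => hw i) (fun i hi => absurd (Finset.mem_univ i) hi)
  have hvol := macbeath hL'c (convex_convexHull ℝ _) hPD
  rw [← h.vol] at hvol
  -- but the volume of the enlarged body is greater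
  have hU : IsOpen (interior L' \ L) := isOpen_interior.sdiff h.compact.isClosed
  have hUne : (interior L' \ L).Nonempty := by
    have h1 : (interior L').Nonempty := h.int.mono (interior_mono hLL')
    have h2 : q ∈ closure (interior L') := by
      rw [(convex_convexHull ℝ _).closure_interior_eq_closure_of_nonempty_interior h1]
      exact subset_closure hqL'
    have h3 := mem_closure_iff.1 h2 Lᶜ h.compact.isClosed.isOpen_compl hqL
    obtain ⟨x, hx1, hx2⟩ := h3
    exact ⟨x, hx2, hx1⟩
  have h1 : 0 < volume (interior L' \ L) := hU.measure_pos volume hUne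
  have h2 : volume L + volume (interior L' \ L) ≤ volume L' := by
    rw [← measure_union disjoint_sdiff_right hU.measurableSet]
    exact measure_mono (union_subset hLL' (sdiff_subset.trans interior_subset))
  have h3 : volume L ≠ ⊤ := h.compact.measure_lt_top.ne
  have h4 : volume L + volume (interior L' \ L) ≤ volume L + 0 := by
    rw [add_zero]; exact h2.trans hvol
  have h5 := (ENNReal.add_le_add_iff_left h3).1 h4
  exact absurd h5 (not_le.2 h1)

end Pool.Agent.T6.H41.MM
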