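import Pool.Agent.T6.H41.MM1

/-!
# The equality case of Macbeath's theorem for determinants, part 2

Steiner symmetrals of extremal bodies are extremal, and the two ends of each chord of an extremal
symmetric body have supporting hyperplanes which cross the axis at opposite heights.
-/

set_option autoImplicit false
open MeasureTheory Set Module Filter Topology Metric TopologicalSpace
open scoped ENNReal RealInnerProductSpace

namespace Pool.Agent.T6.H41.MM

open Pool.Agent.Helper481.RH Pool.Agent.Helper481.MB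

variable {m : ℕ}

lemma propD_coord {L : Set (EE m)} {D : ℝ} (h : PropD L D)
    (b : OrthonormalBasis (Fin (m + 1)) ℝ (EE m)) (s : Fin (m + 1) → ℝ)
    (y : Fin (m + 1) → Fin m → ℝ) (hs : ∀ i, (s i, y i) ∈ coord b '' L) : |cdet s y| ≤ D := by
  have h2 := h (fun i => (coord b).symm (s i, y i)) (by
    intro i
    obtain ⟨z, hz, hze⟩ := hs i
    rw [← hze, (coord b).symm_apply_apply]
    exact hz)
  rw [adet_coord b] at h2
  simpa using h2

/-- the Steiner symmetral, in Euclidean space -/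
noncomputable def stE (b : OrthonormalBasis (Fin (m + 1)) ℝ (EE m)) (L : Set (EE m)) : Set (EE m) :=
  (coord b).symm '' St (coord b '' L)

lemma coord_stE (b : OrthonormalBasis (Fin (m + 1)) ℝ (EE m)) (L : Set (EE m)) :
    coord b '' stE b L = St (coord b '' L) := by
  rw [stE, image_image]
  simp

/-- The Steiner symmetral of an extremal body is extremal. -/
theorem IsEq.steiner {L : Set (EE m)} {D : ℝ} (h : IsEq L D)
    (b : OrthonormalBasis (Fin (m + 1)) ℝ (EE m)) : IsEq (stE b L) D := by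
  have hK : IsCompact (coord b '' L) := h.compact.image (coord b).continuous
  have hKc : Convex ℝ (coord b '' L) := h.convex.linear_image (coord b).toLinearEquiv.toLinearMap
  have hconv : Convex ℝ (stE b L) :=
    (St_convex hKc).linear_image (coord b).symm.toLinearEquiv.toLinearMap
  have hvol : volume (stE b L) = kap (m + 1) * ENNReal.ofReal D := by
    rw [← volume_coord_image b, coord_stE, volume_St hK hKc, volume_coord_image]
    exact h.vol
  refine ⟨(St_compact hK).image (coord b).symm.continuous, hconv, ?_, ?_, hvol, h.pos⟩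
  · apply interior_nonempty_of_volume hconv
    rw [hvol, ← h.vol]
    exact (Measure.measure_pos_of_nonempty_interior volume h.int).ne'
  · intro v hv
    have hv' : ∀ i, coord b (v i) ∈ St (coord b '' L) := fun i => by
      rw [← coord_stE]; exact ⟨v i, hv i, rfl⟩
    choose a c ha hc hac using hv'
    rw [adet_coord b]
    have e1 : (fun j => (coord b (v j)).1) = fun j => (a j - c j) / 2 := funext fun j => hac j
    rw [e1, cdet_half]
    have h3 := propD_coord h.prop b a _ ha
    have h4 := propD_coord h.prop b c _ hc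
    rw [abs_le] at h3 h4 ⊢
    constructor <;> linarith [h3.1, h3.2, h4.1, h4.2]

/-- the linear functional `p ↦ det (p, v 1, …, v m)` -/
noncomputable def fdet (v : Fin (m + 1) → Fin (m + 1) → ℝ) : (ℝ × (Fin m → ℝ)) →ₗ[ℝ] ℝ :=
  ((Matrix.detRowAlternating (n := Fin (m + 1)) (R := ℝ)).toMultilinearMap.toLinearMap v 0) ∘ₗ
    (Fin.consEquivL ℝ (fun _ : Fin (m + 1) => ℝ)).toLinearEquiv.toLinearMap

lemma fdet_apply (s : Fin (m + 1) → ℝ) (y : Fin (m + 1) → Fin m → ℝ) (t : ℝ) (x : Fin m → ℝ) :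
    fdet (fun j => Fin.cons (s j) (y j)) (t, x) =
      cdet (Function.update s 0 t) (Function.update y 0 x) := by
  have h1 : fdet (fun j => Fin.cons (s j) (y j)) (t, x) = Matrix.det (Function.update
      (fun j => (Fin.cons (s j) (y j) : Fin (m + 1) → ℝ)) 0 (Fin.cons t x)) := rfl
  rw [h1, cdet, ← Matrix.det_transpose]
  congr 1
  ext i j
  rw [Matrix.transpose_apply, Matrix.of_apply]
  by_cases hj : j = 0
  · subst hj
    rw [Function.update_self, Function.update_self, Function.update_self]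
  · rw [Function.update_of_ne hj, Function.update_of_ne hj, Function.update_of_ne hj]

lemma fdet_one (s s' : Fin (m + 1) → ℝ) (y : Fin (m + 1) → Fin m → ℝ) :
    fdet (fun j => Fin.cons (s j) (y j)) (1, 0) = fdet (fun j => Fin.cons (s' j) (y j)) (1, 0) := by
  have key : ∀ s : Fin (m + 1) → ℝ, fdet (fun j => Fin.cons (s j) (y j)) (1, 0) =
      (Matrix.of fun i k => y (Fin.succ k) i).det := by
    intro s
    rw [fdet_apply, cdet_eq, Fin.sum_univ_succ, Finset.sum_eq_zero]
    · simp only [Fin.val_zero, pow_zero, one_mul, Function.update_self, add_zero]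
      congr 1
    · intro j _
      have h0 : (Matrix.of fun (i k : Fin m) =>
          (Function.update y 0 (0 : Fin m → ℝ)) ((Fin.succ j).succAbove k) i).det = 0 := by
        have : NeZero m := ⟨fun h => by subst h; exact j.elim0⟩
        refine Matrix.det_eq_zero_of_column_eq_zero 0 fun i => ?_
        rw [Matrix.of_apply]
        have : (Fin.succ j).succAbove 0 = 0 := Fin.succ_succAbove_zero j
        rw [this, Function.update_self]
        rfl
      rw [h0, mul_zero]
  rw [key, key]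

/-- the two ends of a chord have supporting hyperplanes crossing the axis at opposite heights -/
theorem IsEq.chord {L : Set (EE m)} {D : ℝ} (h : IsEq L D) (hsym : ∀ x ∈ L, -x ∈ L)
    (b : OrthonormalBasis (Fin (m + 1)) ℝ (EE m)) {y : Fin m → ℝ} {ε : ℝ} (hε : 0 < ε)
    (hy : (1 + ε) • y ∈ proj (coord b '' L)) {p q : ℝ} (hfib : fib (coord b '' L) y = Icc p q) :
    ∃ (α β : (Fin m → ℝ) →ₗ[ℝ] ℝ) (c : ℝ), 0 < c ∧
      (∀ z ∈ coord b '' L, z.1 + α z.2 ≤ c) ∧ (∀ z ∈ coord b '' L, -c ≤ z.1 + β z.2) ∧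
      q + α y = c ∧ p + β y = -c := by
  set K := coord b '' L with hKdef
  have hK : IsCompact K := h.compact.image (coord b).continuous
  have hKc : Convex ℝ K := h.convex.linear_image (coord b).toLinearEquiv.toLinearMap
  have hKint : (interior K).Nonempty := interior_coord_nonempty b h.int
  have hKsym : ∀ z ∈ K, -z ∈ K := by
    rintro _ ⟨x, hx, rfl⟩
    exact ⟨-x, hsym x hx, map_neg _ _⟩
  -- `K` contains `(±τ, 0)`
  obtain ⟨τ, hτ, hτK⟩ : ∃ τ : ℝ, 0 < τ ∧ (τ, (0 : Fin m → ℝ)) ∈ K := by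
    obtain ⟨z, hz⟩ := hKint
    have hcont : Continuous fun τ : ℝ => z + (τ, (0 : Fin m → ℝ)) := by fun_prop
    have h1 : ∀ᶠ τ in 𝓝 (0:ℝ), z + (τ, (0 : Fin m → ℝ)) ∈ interior K := by
      refine hcont.continuousAt.eventually (isOpen_interior.mem_nhds ?_)
      have h0 : (((0:ℝ), (0 : Fin m → ℝ)) : ℝ × (Fin m → ℝ)) = 0 := rfl
      show z + ((0:ℝ), (0 : Fin m → ℝ)) ∈ interior K
      rw [h0, add_zero]
      exact hz
    obtain ⟨τ, hτ1, hτ2⟩ := ((h1.filter_mono nhdsWithin_le_nhds).and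
      (self_mem_nhdsWithin (s := Ioi (0:ℝ)))).exists
    refine ⟨τ / 2, half_pos hτ2, ?_⟩
    have h2 := hKc (interior_subset hτ1) (hKsym z (interior_subset hz))
      (by norm_num : (0:ℝ) ≤ 1 / 2) (by norm_num : (0:ℝ) ≤ 1 / 2) (by norm_num)
    have h3 : (1 / 2 : ℝ) • (z + (τ, (0 : Fin m → ℝ))) + (1 / 2 : ℝ) • (-z) =
        (τ / 2, (0 : Fin m → ℝ)) := by
      rw [smul_add, add_right_comm, ← smul_add, add_neg_cancel, smul_zero, zero_add, Prod.smul_mk,
        smul_zero, smul_eq_mul]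
      congr 1
      ring
    rwa [h3] at h2
  have hτK' : (-τ, (0 : Fin m → ℝ)) ∈ K := by
    have := hKsym _ hτK
    simpa using this
  have h1ε : 0 < 1 + ε := by linarith
  -- points of `K` over `(1 + ε) y` give points over `y`
  have hpt : ∀ ε' : ℝ, 0 < ε' → ∀ a : ℝ, (a, (1 + ε') • y) ∈ K →
      (a + ε' * τ) / (1 + ε') ≤ q ∧ p ≤ (a - ε' * τ) / (1 + ε') := by
    intro ε' hε' a ha
    have h1ε' : 0 < 1 + ε' := by linarith
    have e0 : 1 / (1 + ε') + ε' / (1 + ε') = 1 := by rw [← add_div, div_self h1ε'.ne']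
    have h1 := hKc ha hτK (by positivity : 0 ≤ 1 / (1 + ε')) (by positivity : 0 ≤ ε' / (1 + ε')) e0
    have h2 := hKc ha hτK' (by positivity : 0 ≤ 1 / (1 + ε')) (by positivity : 0 ≤ ε' / (1 + ε')) e0
    have e1 : (1 / (1 + ε')) • ((a, (1 + ε') • y) : ℝ × (Fin m → ℝ)) +
        (ε' / (1 + ε')) • ((τ, 0) : ℝ × (Fin m → ℝ)) = ((a + ε' * τ) / (1 + ε'), y) := by
      rw [Prod.smul_mk, Prod.smul_mk, Prod.mk_add_mk, smul_zero, add_zero, smul_smul,
        one_div_mul_cancel h1ε'.ne', one_smul]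
      congr 1
      simp only [smul_eq_mul]
      ring
    have e2 : (1 / (1 + ε')) • ((a, (1 + ε') • y) : ℝ × (Fin m → ℝ)) +
        (ε' / (1 + ε')) • ((-τ, 0) : ℝ × (Fin m → ℝ)) = ((a - ε' * τ) / (1 + ε'), y) := by
      rw [Prod.smul_mk, Prod.smul_mk, Prod.mk_add_mk, smul_zero, add_zero, smul_smul,
        one_div_mul_cancel h1ε'.ne', one_smul]
      congr 1
      simp only [smul_eq_mul]
      ring
    rw [e1] at h1
    rw [e2] at h2
    have h3 : (a + ε' * τ) / (1 + ε') ∈ Icc p q := by rw [← hfib]; exact h1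
    have h4 : (a - ε' * τ) / (1 + ε') ∈ Icc p q := by rw [← hfib]; exact h2
    exact ⟨h3.2, h4.1⟩
  obtain ⟨⟨a0, y0⟩, ha0, hy0⟩ := hy
  simp only at hy0
  subst hy0
  have hpq : p < q := by
    obtain ⟨h1, h2⟩ := hpt ε hε a0 ha0
    have h3 : (a0 - ε * τ) / (1 + ε) < (a0 + ε * τ) / (1 + ε) := by
      apply div_lt_div_of_pos_right _ h1ε
      have := mul_pos hε hτ
      linarith
    linarith
  have hpK : (p, y) ∈ K := by
    have : p ∈ fib K y := by rw [hfib]; exact ⟨le_rfl, hpq.le⟩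
    exact this
  have hqK : (q, y) ∈ K := by
    have : q ∈ fib K y := by rw [hfib]; exact ⟨hpq.le, le_rfl⟩
    exact this
  -- the boundary point of the symmetral
  have hS := h.steiner b
  set P : EE m := (coord b).symm ((q - p) / 2, y) with hP
  have hPS : P ∈ stE b L := ⟨((q - p) / 2, y), ⟨q, p, hqK, hpK, rfl⟩, rfl⟩
  have hPb : ∀ ε' : ℝ, 0 < ε' → (1 + ε') • P ∉ stE b L := by
    intro ε' hε' hcon
    obtain ⟨z, ⟨a, c, ha, hc, hac⟩, hz⟩ := hcon
    have hz' : z = ((1 + ε') * ((q - p) / 2), (1 + ε') • y) := by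
      apply (coord b).symm.injective
      rw [hz, hP, ← map_smul]
      rfl
    subst hz'
    simp only at ha hc hac
    obtain ⟨h1, -⟩ := hpt ε' hε' a ha
    obtain ⟨-, h2⟩ := hpt ε' hε' c hc
    have h1ε' : 0 < 1 + ε' := by linarith
    rw [div_le_iff₀ h1ε'] at h1
    rw [le_div_iff₀ h1ε'] at h2
    have := mul_pos hε' hτ
    nlinarith
  obtain ⟨w, hwS, hw0, hwD⟩ := hS.exists_tuple hPS hPb
  have hw' : ∀ i, coord b (w i) ∈ St K := fun i => by
    rw [← coord_stE]; exact ⟨w i, hwS i, rfl⟩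
  choose a c ha hc hac using hw'
  set Y : Fin (m + 1) → Fin m → ℝ := fun i => (coord b (w i)).2 with hY
  have hY0 : Y 0 = y := by
    rw [hY]
    simp only
    rw [hw0, hP, (coord b).apply_symm_apply]
  have h00 : (q - p) / 2 = (a 0 - c 0) / 2 := by
    have := hac 0
    rw [hw0, hP, (coord b).apply_symm_apply] at this
    exact this
  have ha0' : a 0 ∈ Icc p q := by
    rw [← hfib, ← hY0]; exact ha 0
  have hc0' : c 0 ∈ Icc p q := by
    rw [← hfib, ← hY0]; exact hc 0
  have hqa : a 0 = q := by linarith [ha0'.1, ha0'.2, hc0'.1, hc0'.2]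
  have hpc : c 0 = p := by linarith [ha0'.1, ha0'.2, hc0'.1, hc0'.2]
  have ha' : ∀ i, (a i, Y i) ∈ K := ha
  have hc' : ∀ i, (c i, Y i) ∈ K := hc
  -- the sign
  obtain ⟨σ, hσ, hσa, hσc⟩ : ∃ σ : ℝ, |σ| = 1 ∧ σ * cdet a Y = D ∧ σ * cdet c Y = -D := by
    rw [adet_coord b] at hwD
    have e1 : (fun j => (coord b (w j)).1) = fun j => (a j - c j) / 2 := funext fun j => hac j
    rw [e1, cdet_half] at hwD
    have h3 := propD_coord h.prop b a Y ha'
    have h4 := propD_coord h.prop b c Y hc'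
    change |(cdet a Y - cdet c Y) / 2| = D at hwD
    rw [abs_le] at h3 h4
    rcases abs_cases ((cdet a Y - cdet c Y) / 2) with h5 | h5
    · refine ⟨1, abs_one, ?_, ?_⟩ <;> linarith [h5.1, h3.1, h3.2, h4.1, h4.2]
    · refine ⟨-1, by simp, ?_, ?_⟩ <;> linarith [h5.1, h3.1, h3.2, h4.1, h4.2]
  -- the functionals
  set f : (ℝ × (Fin m → ℝ)) →ₗ[ℝ] ℝ := σ • fdet (fun j => Fin.cons (a j) (Y j)) with hf
  set g : (ℝ × (Fin m → ℝ)) →ₗ[ℝ] ℝ := σ • fdet (fun j => Fin.cons (c j) (Y j)) with hg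
  have hfK : ∀ z ∈ K, |f z| ≤ D := by
    rintro ⟨t, x⟩ hz
    rw [hf, LinearMap.smul_apply, smul_eq_mul, abs_mul, hσ, one_mul, fdet_apply]
    apply propD_coord h.prop b
    intro i
    by_cases hi : i = 0
    · subst hi
      rw [Function.update_self, Function.update_self]
      exact hz
    · rw [Function.update_of_ne hi, Function.update_of_ne hi]
      exact ha' i
  have hgK : ∀ z ∈ K, |g z| ≤ D := by
    rintro ⟨t, x⟩ hz
    rw [hg, LinearMap.smul_apply, smul_eq_mul, abs_mul, hσ, one_mul, fdet_apply]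
    apply propD_coord h.prop b
    intro i
    by_cases hi : i = 0
    · subst hi
      rw [Function.update_self, Function.update_self]
      exact hz
    · rw [Function.update_of_ne hi, Function.update_of_ne hi]
      exact hc' i
  have hfq : f (q, y) = D := by
    rw [hf, LinearMap.smul_apply, smul_eq_mul, fdet_apply, ← hqa, ← hY0, Function.update_eq_self,
      Function.update_eq_self]
    exact hσa
  have hgp : g (p, y) = -D := by
    rw [hg, LinearMap.smul_apply, smul_eq_mul, fdet_apply, ← hpc, ← hY0, Function.update_eq_self,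
      Function.update_eq_self]
    exact hσc
  set Δ : ℝ := f (1, 0) with hΔ
  have hΔg : g (1, 0) = Δ := by
    rw [hΔ, hf, hg, LinearMap.smul_apply, LinearMap.smul_apply, fdet_one c a]
  have hfsplit : ∀ t x, f (t, x) = Δ * t + f (0, x) := by
    intro t x
    have : ((t, x) : ℝ × (Fin m → ℝ)) = t • ((1, 0) : ℝ × (Fin m → ℝ)) + (0, x) := by
      rw [Prod.smul_mk, Prod.mk_add_mk]
      simp
    rw [this, map_add, map_smul, smul_eq_mul, ← hΔ, mul_comm]
  have hgsplit : ∀ t x, g (t, x) = Δ * t + g (0, x) := by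
    intro t x
    have : ((t, x) : ℝ × (Fin m → ℝ)) = t • ((1, 0) : ℝ × (Fin m → ℝ)) + (0, x) := by
      rw [Prod.smul_mk, Prod.mk_add_mk]
      simp
    rw [this, map_add, map_smul, smul_eq_mul, hΔg, mul_comm]
  have hΔ0 : 0 ≤ Δ := by
    have h1 := (abs_le.1 (hfK _ hpK)).2
    rw [← hfq, hfsplit p, hfsplit q] at h1
    by_contra hcon
    push Not at hcon
    nlinarith
  have hΔpos : 0 < Δ := by
    rcases hΔ0.lt_or_eq with h1 | h1
    · exact h1
    · exfalso
      have h2 := (abs_le.1 (hfK _ ha0)).2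
      rw [hfsplit, ← h1, zero_mul, zero_add] at h2
      have h3 : f (0, (1 + ε) • y) = (1 + ε) * f (0, y) := by
        have : ((0, (1 + ε) • y) : ℝ × (Fin m → ℝ)) = (1 + ε) • ((0, y) : ℝ × (Fin m → ℝ)) := by
          rw [Prod.smul_mk, smul_zero]
        rw [this, map_smul, smul_eq_mul]
      have h4 : f (0, y) = D := by
        rw [← hfq, hfsplit q, ← h1, zero_mul, zero_add]
      rw [h3, h4] at h2
      have := mul_pos hε h.pos
      nlinarith
  refine ⟨Δ⁻¹ • (f ∘ₗ LinearMap.inr ℝ ℝ (Fin m → ℝ)), Δ⁻¹ • (g ∘ₗ LinearMap.inr ℝ ℝ (Fin m → ℝ)),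
    D / Δ, div_pos h.pos hΔpos, ?_, ?_, ?_, ?_⟩
  · rintro ⟨t, x⟩ hz
    have h1 := (abs_le.1 (hfK _ hz)).2
    rw [hfsplit] at h1
    rw [LinearMap.smul_apply, LinearMap.comp_apply, LinearMap.inr_apply, smul_eq_mul, le_div_iff₀ hΔpos,
      add_mul, mul_assoc, mul_comm (f _) Δ, ← mul_assoc, inv_mul_cancel₀ hΔpos.ne', one_mul]
    simp only
    linarith
  · rintro ⟨t, x⟩ hz
    have h1 := (abs_le.1 (hgK _ hz)).1
    rw [hgsplit] at h1
    rw [LinearMap.smul_apply, LinearMap.comp_apply, LinearMap.inr_apply, smul_eq_mul, ← neg_div,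
      div_le_iff₀ hΔpos,
      add_mul, mul_assoc, mul_comm (g _) Δ, ← mul_assoc, inv_mul_cancel₀ hΔpos.ne', one_mul]
    simp only
    linarith
  · rw [hfsplit] at hfq
    rw [LinearMap.smul_apply, LinearMap.comp_apply, LinearMap.inr_apply, smul_eq_mul, ← hfq,
      add_div, mul_div_cancel_left₀ _ hΔpos.ne', inv_mul_eq_div]
  · rw [hgsplit] at hgp
    rw [LinearMap.smul_apply, LinearMap.comp_apply, LinearMap.inr_apply, smul_eq_mul, ← neg_div, ← hgp,
      add_div, mul_div_cancel_left₀ _ hΔpos.ne', inv_mul_eq_div]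

end Pool.Agent.T6.H41.MM
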