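import Pool.Agent.T6.H41.MM2

/-!
# The equality case of Macbeath's theorem for determinants, part 3

The midpoints of the chords of an extremal symmetric body parallel to a smooth direction lie in a
hyperplane.
-/

set_option autoImplicit false
open MeasureTheory Set Module Filter Topology Metric TopologicalSpace
open scoped ENNReal RealInnerProductSpace

namespace Pool.Agent.T6.H41.MM

open Pool.Agent.Helper481.RH Pool.Agent.Helper481.MB

variable {m : ℕ}

/-- two functions with a common supergradient differ by a constant -/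
lemma const_of_supergrad {f g h : ℝ → ℝ}
    (hf : ∀ u v, 1 ≤ u → 1 ≤ v → f v - f u ≤ h u * (v - u))
    (hg : ∀ u v, 1 ≤ u → 1 ≤ v → g v - g u ≤ h u * (v - u)) {u v : ℝ} (hu : 1 ≤ u)
    (huv : u ≤ v) : f v - g v = f u - g u := by
  have hstep : ∀ a b, 1 ≤ a → a ≤ b →
      |(f b - g b) - (f a - g a)| ≤ (h a - h b) * (b - a) := by
    intro a b ha hab
    have hb := ha.trans hab
    have h1 := hf a b ha hb
    have h2 := hf b a hb ha
    have h3 := hg a b ha hb
    have h4 := hg b a hb ha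
    rw [abs_le]
    constructor <;> nlinarith
  have hN : ∀ N : ℕ, 0 < N →
      |(f v - g v) - (f u - g u)| ≤ (h u - h v) * (v - u) / N := by
    intro N hN
    have hN' : (0:ℝ) < N := by exact_mod_cast hN
    set δ := (v - u) / N with hδ
    have hδ0 : 0 ≤ δ := div_nonneg (by linarith) hN'.le
    have hind : ∀ k : ℕ, |(f (u + k * δ) - g (u + k * δ)) - (f u - g u)| ≤
        (h u - h (u + k * δ)) * δ := by
      intro k
      induction k with
      | zero => simp
      | succ k ih =>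
        have hk0 : 0 ≤ (k : ℝ) * δ := mul_nonneg (Nat.cast_nonneg k) hδ0
        have h1 := hstep (u + k * δ) (u + (k + 1 : ℕ) * δ) (by linarith)
          (by push_cast; linarith)
        have e : u + ((k + 1 : ℕ) : ℝ) * δ - (u + k * δ) = δ := by push_cast; ring
        rw [e] at h1
        have h2 := abs_add_le ((f (u + (k + 1 : ℕ) * δ) - g (u + (k + 1 : ℕ) * δ)) -
          (f (u + k * δ) - g (u + k * δ))) ((f (u + k * δ) - g (u + k * δ)) - (f u - g u))
        rw [sub_add_sub_cancel] at h2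
        linarith
    have h1 := hind N
    have e : u + (N : ℝ) * δ = v := by
      rw [hδ, mul_div_cancel₀ _ hN'.ne']; ring
    rw [e] at h1
    rw [mul_div_assoc]
    exact h1
  have hlim : Tendsto (fun N : ℕ => (h u - h v) * (v - u) / N) atTop (𝓝 0) :=
    tendsto_const_div_atTop_nhds_zero_nat _
  have h0 : |(f v - g v) - (f u - g u)| ≤ 0 := by
    refine ge_of_tendsto hlim ?_
    filter_upwards [eventually_gt_atTop 0] with N hN'
    exact hN N hN'
  have := abs_nonpos_iff.1 h0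
  linarith

/-- the midpoints of parallel chords over a ray from the centre are homogeneous -/
theorem IsEq.ray {L : Set (EE m)} {D : ℝ} (h : IsEq L D) (hsym : ∀ x ∈ L, -x ∈ L)
    (b : OrthonormalBasis (Fin (m + 1)) ℝ (EE m)) {y : Fin m → ℝ} {ε : ℝ} (hε : 0 < ε)
    (hy : (1 + ε) • y ∈ proj (coord b '' L)) {p q : ℝ} (hfib : fib (coord b '' L) y = Icc p q)
    {r : ℝ} (hr : 0 < r) (hr1 : r ≤ 1) :
    ∃ p' q' : ℝ, p' ≤ q' ∧ fib (coord b '' L) (r • y) = Icc p' q' ∧ p' + q' = r * (p + q) := by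
  set K := coord b '' L with hKdef
  have hK : IsCompact K := h.compact.image (coord b).continuous
  have hKc : Convex ℝ K := h.convex.linear_image (coord b).toLinearEquiv.toLinearMap
  have hKne : K.Nonempty := (h.int.mono interior_subset).image _
  have hKsym : ∀ z ∈ K, -z ∈ K := by
    rintro _ ⟨x, hx, rfl⟩
    exact ⟨-x, hsym x hx, map_neg _ _⟩
  have h0 : (0 : Fin m → ℝ) ∈ proj K := by
    obtain ⟨z, hz⟩ := hKne
    have h1 := hKc hz (hKsym z hz) (by norm_num : (0:ℝ) ≤ 1 / 2) (by norm_num : (0:ℝ) ≤ 1 / 2)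
      (by norm_num)
    refine ⟨_, h1, ?_⟩
    simp
  have hproj : ∀ r : ℝ, 0 ≤ r → r ≤ 1 → r • (1 + ε) • y ∈ proj K := by
    intro r hr hr1
    have h1 := proj_convex hKc hy h0 hr (by linarith : 0 ≤ 1 - r) (by ring)
    rw [smul_zero, add_zero] at h1
    exact h1
  have hproj' : ∀ r : ℝ, 0 ≤ r → r ≤ 1 → r • y ∈ proj K := by
    intro r hr hr1
    have h1ε : 0 < 1 + ε := by linarith
    have h1 := hproj (r / (1 + ε)) (by positivity) (by rw [div_le_one h1ε]; linarith)
    rwa [smul_smul, div_mul_cancel₀ _ h1ε.ne'] at h1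
  have hch : ∀ u : ℝ, ∃ P Q c : ℝ, 1 ≤ u → (P ≤ Q ∧ fib K (u⁻¹ • y) = Icc P Q ∧
      ∀ v, 1 ≤ v → ∀ t, (t, v⁻¹ • y) ∈ K → v * t - u * Q ≤ c * (v - u) ∧
        u * P - v * t ≤ c * (v - u)) := by
    intro u
    by_cases hu : 1 ≤ u
    swap
    · exact ⟨0, 0, 0, fun h => absurd h hu⟩
    have hu0 : 0 < u := by linarith
    have hu1 : u⁻¹ ≤ 1 := inv_le_one_of_one_le₀ hu
    have hne : (fib K (u⁻¹ • y)).Nonempty := by
      obtain ⟨⟨t, x⟩, hz, hx⟩ := hproj' u⁻¹ (by positivity) hu1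
      simp only at hx
      subst hx
      exact ⟨t, hz⟩
    obtain ⟨P, Q, hPQ, hP, hQ, hI⟩ := fib_eq_Icc hK hKc hne
    have hyu : (1 + ε) • u⁻¹ • y ∈ proj K := by
      rw [smul_comm]
      exact hproj u⁻¹ (by positivity) hu1
    obtain ⟨α, β, c, hc, h1, h2, h3, h4⟩ := h.chord hsym b hε hyu hI
    refine ⟨P, Q, c, fun _ => ⟨hPQ, hI, ?_⟩⟩
    intro v hv t ht
    have hv0 : 0 < v := by linarith
    have h5 := h1 _ ht
    have h6 := h2 _ ht
    simp only at h5 h6
    rw [map_smul, smul_eq_mul] at h3 h4 h5 h6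
    have e1 : α y = u * (c - Q) := by
      have : u⁻¹ * α y = c - Q := by linarith
      rw [← this, ← mul_assoc, mul_inv_cancel₀ hu0.ne', one_mul]
    have e2 : β y = u * (-c - P) := by
      have : u⁻¹ * β y = -c - P := by linarith
      rw [← this, ← mul_assoc, mul_inv_cancel₀ hu0.ne', one_mul]
    have h7 : v * (t + v⁻¹ * α y) ≤ v * c := mul_le_mul_of_nonneg_left h5 hv0.le
    have h8 : v * (-c) ≤ v * (t + v⁻¹ * β y) := mul_le_mul_of_nonneg_left h6 hv0.le
    rw [mul_add, ← mul_assoc, mul_inv_cancel₀ hv0.ne', one_mul] at h7 h8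
    rw [e1] at h7
    rw [e2] at h8
    constructor <;> nlinarith
  choose P Q c hPQ using hch
  have hmemP : ∀ u, 1 ≤ u → (P u, u⁻¹ • y) ∈ K := by
    intro u hu
    obtain ⟨h1, h2, -⟩ := hPQ u hu
    have : P u ∈ fib K (u⁻¹ • y) := by rw [h2]; exact ⟨le_rfl, h1⟩
    exact this
  have hmemQ : ∀ u, 1 ≤ u → (Q u, u⁻¹ • y) ∈ K := by
    intro u hu
    obtain ⟨h1, h2, -⟩ := hPQ u hu
    have : Q u ∈ fib K (u⁻¹ • y) := by rw [h2]; exact ⟨h1, le_rfl⟩
    exact this
  have hr' : 1 ≤ r⁻¹ := (one_le_inv₀ hr).2 hr1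
  have hconst := const_of_supergrad (f := fun u => u * Q u) (g := fun u => -(u * P u)) (h := c)
    (fun u v hu hv => ((hPQ u hu).2.2 v hv _ (hmemQ v hv)).1)
    (fun u v hu hv => by
      have := ((hPQ u hu).2.2 v hv _ (hmemP v hv)).2
      linarith) le_rfl hr'
  obtain ⟨h1, h2, -⟩ := hPQ 1 le_rfl
  rw [inv_one, one_smul, hfib] at h2
  have h3 := (Icc_eq_Icc_iff h1).1 h2.symm
  obtain ⟨h4, h5, -⟩ := hPQ _ hr'
  rw [inv_inv] at h5
  refine ⟨_, _, h4, h5, ?_⟩
  rw [h3.1, h3.2] at hconst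
  field_simp at hconst
  rw [one_div] at hconst
  linarith

/-- the midpoints of the chords parallel to a smooth direction -/
theorem IsEq.midpoint {L : Set (EE m)} {D : ℝ} (h : IsEq L D) (hsym : ∀ x ∈ L, -x ∈ L)
    (b : OrthonormalBasis (Fin (m + 1)) ℝ (EE m)) (hdiff : DifferentiableAt ℝ (gauge L) (b 0)) :
    ∃ κ : (Fin m → ℝ) →ₗ[ℝ] ℝ, ∀ (y : Fin m → ℝ) (ε : ℝ), 0 < ε →
      (1 + ε) • y ∈ proj (coord b '' L) → ∀ p q : ℝ, fib (coord b '' L) y = Icc p q →
      p + q = 2 * κ y := by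
  have hL0 : L ∈ 𝓝 (0 : EE m) := by
    obtain ⟨z, hz⟩ := h.int
    have hcont : Continuous fun w : EE m => z + (2:ℝ) • w := by fun_prop
    have h1 : ∀ᶠ w in 𝓝 (0 : EE m), z + (2:ℝ) • w ∈ interior L := by
      refine hcont.continuousAt.eventually (isOpen_interior.mem_nhds ?_)
      show z + (2:ℝ) • (0 : EE m) ∈ interior L
      rw [smul_zero, add_zero]
      exact hz
    filter_upwards [h1] with w hw
    have h2 := h.convex (interior_subset hw) (hsym z (interior_subset hz))
      (by norm_num : (0:ℝ) ≤ 1 / 2) (by norm_num : (0:ℝ) ≤ 1 / 2) (by norm_num)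
    have h3 : (1 / 2 : ℝ) • (z + (2:ℝ) • w) + (1 / 2 : ℝ) • (-z) = w := by module
    rwa [h3] at h2
  have habs : Absorbent ℝ L := absorbent_nhds_zero hL0
  have hmem : ∀ x, gauge L x ≤ 1 ↔ x ∈ L := by
    intro x
    rw [gauge_le_one_iff_mem_closure h.convex hL0, h.compact.isClosed.closure_eq]
  set G := gauge L with hG
  have hhom : ∀ (s : ℝ) (x : EE m), 0 ≤ s → G (s • x) = s * G x := by
    intro s x hs
    rw [hG, gauge_smul_of_nonneg hs, smul_eq_mul]
  have hadd : ∀ x y, G (x + y) ≤ G x + G y := gauge_add_le h.convex habs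
  set u := b 0 with hu
  set F : EE m →L[ℝ] ℝ := fderiv ℝ G u with hF
  have hFd : HasFDerivAt G F u := hdiff.hasFDerivAt
  have hline : ∀ w : EE m, HasDerivAt (fun r : ℝ => G (u + r • w)) (F w) 0 := by
    intro w
    have h1 : HasDerivAt (fun r : ℝ => u + r • w) w 0 := by
      have h2 : HasDerivAt (fun r : ℝ => u + r • w) ((1:ℝ) • w) 0 :=
        ((hasDerivAt_id (0:ℝ)).smul_const w).const_add u
      rwa [one_smul] at h2
    have h2 : HasFDerivAt G F (u + (0:ℝ) • w) := by rw [zero_smul, add_zero]; exact hFd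
    exact h2.comp_hasDerivAt (0:ℝ) h1
  have hune : u ≠ 0 := by
    have h1 : ‖u‖ = 1 := b.orthonormal.1 0
    intro h0
    rw [h0, norm_zero] at h1
    exact zero_ne_one h1
  have hGu : 0 < G u := (gauge_pos habs
    (NormedSpace.isVonNBounded_of_isBounded ℝ h.compact.isBounded)).2 hune
  have hFle : ∀ w, F w ≤ G w := by
    intro w
    have h1 := (hline w).tendsto_slope_zero_right
    refine le_of_tendsto h1 ?_
    filter_upwards [self_mem_nhdsWithin] with r hr
    have hr' : (0:ℝ) < r := hr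
    have h2 := hadd u (r • w)
    rw [hhom r w hr'.le] at h2
    rw [zero_add, zero_smul, add_zero, smul_eq_mul, inv_mul_le_iff₀ hr']
    linarith
  have hFu : F u = G u := by
    have h1 := hline u
    have h2 : HasDerivAt (fun r : ℝ => G (u + r • u)) (G u) 0 := by
      have h3 : HasDerivAt (fun r : ℝ => (1 + r) * G u) (G u) 0 := by
        have h4 : HasDerivAt (fun r : ℝ => (1 + r) * G u) (1 * G u) 0 :=
          ((hasDerivAt_id (0:ℝ)).const_add 1).mul_const _
        rwa [one_mul] at h4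
      refine h3.congr_of_eventuallyEq ?_
      have h5 : ∀ᶠ r : ℝ in 𝓝 0, -1 < r := eventually_gt_nhds (by norm_num)
      filter_upwards [h5] with r hr
      have : u + r • u = (1 + r) • u := by rw [add_smul, one_smul]
      rw [this, hhom _ _ (by linarith)]
    exact h1.unique h2
  set a : ℝ := (G u)⁻¹ with ha
  have ha0 : 0 < a := inv_pos.2 hGu
  have haG : a * G u = 1 := inv_mul_cancel₀ hGu.ne'
  -- the coordinates
  have hsplit : ∀ (t : ℝ) (x : Fin m → ℝ),
      (coord b).symm (t, x) = t • u + (coord b).symm (0, x) := by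
    intro t x
    apply (coord b).injective
    rw [map_add, map_smul, (coord b).apply_symm_apply, (coord b).apply_symm_apply, hu, coord_basis]
    simp
  set κ : (Fin m → ℝ) →ₗ[ℝ] ℝ :=
    (-a) • (F.toLinearMap ∘ₗ (coord b).symm.toLinearEquiv.toLinearMap ∘ₗ
      LinearMap.inr ℝ ℝ (Fin m → ℝ)) with hκ
  have hκ' : ∀ x, κ x = -a * F ((coord b).symm (0, x)) := fun x => rfl
  set K := coord b '' L with hKdef
  have hKmem : ∀ (t : ℝ) (x : Fin m → ℝ), (t, x) ∈ K ↔ (coord b).symm (t, x) ∈ L := by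
    intro t x
    constructor
    · rintro ⟨w, hw, hwe⟩
      rw [← hwe, (coord b).symm_apply_apply]
      exact hw
    · intro hw
      exact ⟨_, hw, (coord b).apply_symm_apply _⟩
  have hK : IsCompact K := h.compact.image (coord b).continuous
  have hKc : Convex ℝ K := h.convex.linear_image (coord b).toLinearEquiv.toLinearMap
  -- upper bounds
  have hup : ∀ (t : ℝ) (x : Fin m → ℝ), (t, x) ∈ K → t ≤ a + κ x := by
    intro t x hz
    rw [hKmem] at hz
    have h1 := (hFle _).trans ((hmem _).2 hz)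
    rw [hsplit, map_add, map_smul, smul_eq_mul, hFu] at h1
    rw [hκ']
    have h2 : a * (t * G u + F ((coord b).symm (0, x))) ≤ a * 1 :=
      mul_le_mul_of_nonneg_left h1 ha0.le
    have h3 : a * (t * G u + F ((coord b).symm (0, x))) =
        t * (a * G u) + a * F ((coord b).symm (0, x)) := by ring
    rw [h3, haG] at h2
    linarith
  have hneg : ∀ (t : ℝ) (x : Fin m → ℝ), (t, x) ∈ K → (-t, -x) ∈ K := by
    rintro t x ⟨w, hw, hwe⟩
    exact ⟨-w, hsym w hw, by rw [map_neg, hwe]; rfl⟩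
  have hlo : ∀ (t : ℝ) (x : Fin m → ℝ), (t, x) ∈ K → -a + κ x ≤ t := by
    intro t x hz
    have h1 := hup _ _ (hneg t x hz)
    rw [map_neg] at h1
    linarith
  -- points near the boundary
  have hnear : ∀ (y : Fin m → ℝ) (δ : ℝ), 0 < δ →
      ∀ᶠ r : ℝ in 𝓝[>] 0, (a + r * κ y - δ * r, r • y) ∈ K := by
    intro y δ hδ
    set w : EE m := a⁻¹ • ((coord b).symm (0, y) + (κ y - δ) • u) with hw
    have h1 := (hline w).tendsto_slope_zero_right
    have h2 : F w < 0 := by
      rw [hw, map_smul, map_add, map_smul, smul_eq_mul, smul_eq_mul, hFu, hκ']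
      have h3 : a⁻¹ * (F ((coord b).symm (0, y)) +
          (-a * F ((coord b).symm (0, y)) - δ) * G u) = a⁻¹ * (F ((coord b).symm (0, y)) *
            (1 - a * G u) - δ * G u) := by ring
      rw [h3, haG, sub_self, mul_zero, zero_sub]
      have := mul_pos (inv_pos.2 ha0) (mul_pos hδ hGu)
      linarith
    filter_upwards [h1.eventually_lt_const h2, self_mem_nhdsWithin] with r hr hr0
    have hr0' : (0:ℝ) < r := hr0
    rw [zero_add, zero_smul, add_zero, smul_eq_mul, inv_mul_lt_iff₀ hr0', mul_zero, sub_neg] at hr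
    rw [hKmem, ← hmem, hsplit]
    have e : (a + r * κ y - δ * r) • u + (coord b).symm (0, r • y) = a • (u + r • w) := by
      have e1 : (coord b).symm (0, r • y) = r • (coord b).symm (0, y) := by
        rw [← map_smul, Prod.smul_mk, smul_zero]
      rw [e1, hw, smul_add a, smul_comm r a⁻¹, smul_smul a a⁻¹, mul_inv_cancel₀ ha0.ne', one_smul]
      module
    rw [e, hhom _ _ ha0.le]
    calc a * G (u + r • w) ≤ a * G u := mul_le_mul_of_nonneg_left hr.le ha0.le
      _ = 1 := haG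
  refine ⟨κ, fun y ε hε hy p q hfib => ?_⟩
  have key : ∀ δ : ℝ, 0 < δ → |(p + q) - 2 * κ y| ≤ δ := by
    intro δ hδ
    have hle1 : ∀ᶠ r : ℝ in 𝓝[>] 0, r ≤ 1 :=
      (eventually_le_nhds (by norm_num : (0:ℝ) < 1)).filter_mono nhdsWithin_le_nhds
    obtain ⟨r, ⟨⟨⟨hr1, hr2⟩, hr3⟩, hr4⟩⟩ := (((hnear y δ hδ).and (hnear (-y) δ hδ)).and
      hle1).and (self_mem_nhdsWithin (s := Ioi (0:ℝ))) |>.exists
    have hr0 : (0:ℝ) < r := hr4
    obtain ⟨p', q', hpq', hI, hsum⟩ := h.ray hsym b hε hy hfib hr0 hr3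
    have h1 : a + r * κ y - δ * r ∈ Icc p' q' := by rw [← hI]; exact hr1
    have h2 := hneg _ _ hr2
    rw [smul_neg, neg_neg, map_neg] at h2
    have h3 : -(a + r * -κ y - δ * r) ∈ Icc p' q' := by rw [← hI]; exact h2
    have hp'K : (p', r • y) ∈ K := by
      have : p' ∈ fib K (r • y) := by rw [hI]; exact ⟨le_rfl, hpq'⟩
      exact this
    have hq'K : (q', r • y) ∈ K := by
      have : q' ∈ fib K (r • y) := by rw [hI]; exact ⟨hpq', le_rfl⟩
      exact this
    have h4 := hup _ _ hq'K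
    have h5 := hlo _ _ hp'K
    rw [map_smul, smul_eq_mul] at h4 h5
    have h6 : r * |(p + q) - 2 * κ y| ≤ r * δ := by
      have e : r * |(p + q) - 2 * κ y| = |r * ((p + q) - 2 * κ y)| := by
        rw [abs_mul, abs_of_pos hr0]
      rw [e, mul_sub, ← hsum, abs_le]
      constructor <;> nlinarith [h1.1, h1.2, h3.1, h3.2]
    exact le_of_mul_le_mul_left h6 hr0
  have h0 : |(p + q) - 2 * κ y| ≤ 0 := le_of_forall_pos_le_add fun δ hδ => by
    rw [zero_add]; exact key δ hδ
  have := abs_nonpos_iff.1 h0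
  linarith

end Pool.Agent.T6.H41.MM
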