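import Pool.Agent.T6.H41.MM3
import Pool.Agent.Y506.KS.Body

/-!
# The equality case of Macbeath's theorem for determinants, part 4

Extremal symmetric bodies are ellipsoids.
-/

set_option autoImplicit false
open MeasureTheory Set Module Filter Topology Metric TopologicalSpace
open scoped ENNReal RealInnerProductSpace

namespace Pool.Agent.T6.H41.MM

open Pool.Agent.Helper481.RH Pool.Agent.Helper481.MB

variable {m : ℕ}

/-- an extremal symmetric body is invariant under a reflection in each smooth direction -/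
theorem IsEq.reflect {L : Set (EE m)} {D : ℝ} (h : IsEq L D) (hsym : ∀ x ∈ L, -x ∈ L)
    (b : OrthonormalBasis (Fin (m + 1)) ℝ (EE m)) (hdiff : DifferentiableAt ℝ (gauge L) (b 0)) :
    ∃ κ : (Fin m → ℝ) →ₗ[ℝ] ℝ, ∀ z ∈ coord b '' L, (2 * κ z.2 - z.1, z.2) ∈ coord b '' L := by
  obtain ⟨κ, hκ⟩ := h.midpoint hsym b hdiff
  refine ⟨κ, ?_⟩
  set K := coord b '' L with hKdef
  have hK : IsCompact K := h.compact.image (coord b).continuous
  have hKc : Convex ℝ K := h.convex.linear_image (coord b).toLinearEquiv.toLinearMap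
  have hKint : (interior K).Nonempty := interior_coord_nonempty b h.int
  have hκc : Continuous κ := LinearMap.continuous_of_finiteDimensional κ
  have hcont : Continuous fun z : ℝ × (Fin m → ℝ) => (2 * κ z.2 - z.1, z.2) := by fun_prop
  have hcl : IsClosed {z : ℝ × (Fin m → ℝ) | (2 * κ z.2 - z.1, z.2) ∈ K} :=
    hK.isClosed.preimage hcont
  have hsub : interior K ⊆ {z : ℝ × (Fin m → ℝ) | (2 * κ z.2 - z.1, z.2) ∈ K} := by
    rintro ⟨t, y⟩ hz
    have hzK := interior_subset hz
    have hcont2 : Continuous fun s : ℝ => (1 + s) • ((t, y) : ℝ × (Fin m → ℝ)) := by fun_prop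
    have h1 : ∀ᶠ s : ℝ in 𝓝 0, (1 + s) • ((t, y) : ℝ × (Fin m → ℝ)) ∈ interior K := by
      refine hcont2.continuousAt.eventually (isOpen_interior.mem_nhds ?_)
      show (1 + (0:ℝ)) • ((t, y) : ℝ × (Fin m → ℝ)) ∈ interior K
      rw [add_zero, one_smul]
      exact hz
    obtain ⟨s, hs1, hs2⟩ := ((h1.filter_mono nhdsWithin_le_nhds).and
      (self_mem_nhdsWithin (s := Ioi (0:ℝ)))).exists
    have hs : (1 + s) • y ∈ proj K := ⟨_, interior_subset hs1, rfl⟩
    obtain ⟨p, q, hpq, hp, hq, hI⟩ := fib_eq_Icc hK hKc (⟨t, hzK⟩ : (fib K y).Nonempty)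
    have h2 := hκ y s hs2 hs p q hI
    have h3 : t ∈ Icc p q := by rw [← hI]; exact hzK
    have h4 : 2 * κ y - t ∈ fib K y := by
      rw [hI]
      constructor <;> linarith [h3.1, h3.2]
    exact h4
  have h4 : closure (interior K) = K := by
    rw [hKc.closure_interior_eq_closure_of_nonempty_interior hKint, hK.isClosed.closure_eq]
  intro z hz
  have h5 : closure (interior K) ⊆ {z : ℝ × (Fin m → ℝ) | (2 * κ z.2 - z.1, z.2) ∈ K} :=
    closure_minimal hsub hcl
  rw [h4] at h5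
  exact h5 hz

/-- a body in isotropic position which is invariant under an oblique reflection is invariant under
the orthogonal one: the two are the same -/
theorem reflection_orth {L : Set (EE m)} {V : ℝ} (hV : 0 < V)
    (hiso : ∀ c : EE m, ‖c‖ ^ 2 * V = ∫ s in L, ⟪c, s⟫ ^ 2) {u w : EE m} (hu : ‖u‖ = 1)
    (hw : ⟪w, u⟫ = 1) (hinv : ∀ x ∈ L, x - (2 * ⟪w, x⟫) • u ∈ L) : w = u := by
  -- the reflection
  let T : EE m →ₗ[ℝ] EE m :=
    LinearMap.id - (2:ℝ) • ((innerSL ℝ w).toLinearMap.smulRight u)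
  have hT : ∀ x, T x = x - (2 * ⟪w, x⟫) • u := by
    intro x
    simp only [T, LinearMap.sub_apply, LinearMap.id_coe, id_eq, LinearMap.smul_apply,
      LinearMap.smulRight_apply, ContinuousLinearMap.coe_coe, innerSL_apply_apply]
    rw [smul_smul]
  have hTT : ∀ x, T (T x) = x := by
    intro x
    rw [hT (T x), hT x, inner_sub_right, inner_smul_right, hw]
    module
  have hcomp : T ∘ₗ T = LinearMap.id := LinearMap.ext hTT
  have hdet : LinearMap.det T * LinearMap.det T = 1 := by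
    rw [← LinearMap.det_comp, hcomp, LinearMap.det_id]
  have hdet0 : LinearMap.det T ≠ 0 := by
    intro h0
    rw [h0, mul_zero] at hdet
    exact zero_ne_one hdet
  have hdet1 : |(LinearMap.det T)⁻¹| = 1 := by
    rw [abs_inv]
    have h1 : |LinearMap.det T| * |LinearMap.det T| = 1 := by rw [← abs_mul, hdet, abs_one]
    have h2 : |LinearMap.det T| = 1 := by nlinarith [abs_nonneg (LinearMap.det T)]
    rw [h2, inv_one]
  have hmp : MeasurePreserving T volume volume := by
    refine ⟨(LinearMap.continuous_of_finiteDimensional T).measurable, ?_⟩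
    rw [Measure.map_linearMap_addHaar_eq_smul_addHaar volume hdet0, hdet1, ENNReal.ofReal_one,
      one_smul]
  let Te : EE m ≃L[ℝ] EE m :=
    (LinearEquiv.ofInvolutive T hTT).toContinuousLinearEquiv
  have hemb : MeasurableEmbedding T := by
    have h1 := Te.toHomeomorph.measurableEmbedding
    exact h1
  have hpre : T ⁻¹' L = L := by
    apply Subset.antisymm
    · intro x hx
      have h1 := hinv (T x) hx
      rw [← hT (T x), hTT] at h1
      exact h1
    · intro x hx
      have h1 := hinv x hx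
      rw [← hT] at h1
      exact h1
  have h1 := hmp.setIntegral_preimage_emb hemb (fun s => ⟪u, s⟫ ^ 2) L
  rw [hpre, ← hiso u] at h1
  have h2 : ∀ s, ⟪u, T s⟫ = ⟪u - (2:ℝ) • w, s⟫ := by
    intro s
    rw [hT, inner_sub_right, inner_smul_right, real_inner_self_eq_norm_sq, hu, inner_sub_left,
      real_inner_smul_left]
    ring
  simp only [h2] at h1
  rw [← hiso] at h1
  have h3 : ‖u - (2:ℝ) • w‖ ^ 2 = ‖u‖ ^ 2 := mul_right_cancel₀ hV.ne' h1
  rw [norm_sub_sq_real, hu, norm_smul, inner_smul_right, real_inner_comm, hw] at h3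
  norm_num at h3
  have h4 : ‖w‖ ^ 2 = 1 := by nlinarith
  have h5 : ‖w - u‖ ^ 2 = 0 := by
    rw [norm_sub_sq_real, h4, hw, hu]
    norm_num
  have h6 : ‖w - u‖ = 0 := by
    rw [← sq_eq_zero_iff]; exact h5
  exact sub_eq_zero.1 (norm_eq_zero.1 h6)

/-- an extremal symmetric body in isotropic position is symmetric in each smooth direction -/
theorem IsEq.symm_smooth {L : Set (EE m)} {D : ℝ} (h : IsEq L D) (hsym : ∀ x ∈ L, -x ∈ L)
    {V : ℝ} (hV : 0 < V) (hiso : ∀ c : EE m, ‖c‖ ^ 2 * V = ∫ s in L, ⟪c, s⟫ ^ 2)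
    {v : EE m} (hv : ‖v‖ = 1) (hdiff : DifferentiableAt ℝ (gauge L) v) :
    ∀ x ∈ L, x - (2 * ⟪v, x⟫) • v ∈ L := by
  obtain ⟨b, hb⟩ := exists_basis hv
  rw [← hb] at hdiff
  obtain ⟨κ, hκ⟩ := h.reflect hsym b hdiff
  -- the functional `t - κ y`
  let f : EE m →L[ℝ] ℝ := LinearMap.toContinuousLinearMap
    ((LinearMap.fst ℝ ℝ (Fin m → ℝ) - κ ∘ₗ LinearMap.snd ℝ ℝ (Fin m → ℝ)) ∘ₗ
      (coord b).toLinearEquiv.toLinearMap)
  have hf : ∀ x, f x = (coord b x).1 - κ (coord b x).2 := fun x => rfl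
  set w : EE m := (InnerProductSpace.toDual ℝ (EE m)).symm f with hw
  have hwf : ∀ x, ⟪w, x⟫ = (coord b x).1 - κ (coord b x).2 := by
    intro x
    rw [hw, InnerProductSpace.toDual_symm_apply, hf]
  have hinv : ∀ x ∈ L, x - (2 * ⟪w, x⟫) • v ∈ L := by
    intro x hx
    obtain ⟨y, hy, hye⟩ := hκ (coord b x) ⟨x, hx, rfl⟩
    have : y = x - (2 * ⟪w, x⟫) • v := by
      apply (coord b).injective
      rw [hye, map_sub, map_smul, ← hb, coord_basis, hwf]
      refine Prod.ext ?_ ?_
      · simp; ring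
      · simp
    rw [← this]; exact hy
  have hwv : ⟪w, v⟫ = 1 := by
    rw [hwf, ← hb, coord_basis]
    simp
  have hwv' := reflection_orth hV hiso hv hwv hinv
  rw [hwv'] at hinv
  exact hinv

/-- an extremal symmetric body in isotropic position is a ball -/
theorem IsEq.ball {L : Set (EE m)} {D : ℝ} (h : IsEq L D) (hsym : ∀ x ∈ L, -x ∈ L)
    {V : ℝ} (hV : 0 < V) (hiso : ∀ c : EE m, ‖c‖ ^ 2 * V = ∫ s in L, ⟪c, s⟫ ^ 2) :
    ∃ ρ, 0 ≤ ρ ∧ L = closedBall 0 ρ := by
  apply eq_ball h.compact h.convex (h.int.mono interior_subset)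
  intro v hv x hx
  -- smooth directions are dense
  have hL0 : L ∈ 𝓝 (0 : EE m) := by
    obtain ⟨z, hz⟩ := h.int
    have hcont : Continuous fun w : EE m => z + (2:ℝ) • w := by fun_prop
    have h1 : ∀ᶠ w in 𝓝 (0 : EE m), z + (2:ℝ) • w ∈ interior L := by
      refine hcont.continuousAt.eventually (isOpen_interior.mem_nhds ?_)
      show z + (2:ℝ) • (0 : EE m) ∈ interior L
      rw [smul_zero, add_zero]
      exact hz
    filter_upwards [h1] with w hw
    have h2 := h.convex (interior_subset hw) (hsym z (interior_subset hz))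
      (by norm_num : (0:ℝ) ≤ 1 / 2) (by norm_num : (0:ℝ) ≤ 1 / 2) (by norm_num)
    have h3 : (1 / 2 : ℝ) • (z + (2:ℝ) • w) + (1 / 2 : ℝ) • (-z) = w := by module
    rwa [h3] at h2
  obtain ⟨r, hr, hrL⟩ := Metric.mem_nhds_iff.1 hL0
  have hLip := h.convex.lipschitzWith_gauge (r := ⟨r, hr.le⟩) hr hrL
  have hdense : Dense {x : EE m | DifferentiableAt ℝ (gauge L) x} :=
    Measure.dense_of_ae (hLip.ae_differentiableAt (μ := volume))
  have hv0 : v ≠ 0 := by
    intro h0
    rw [h0, norm_zero] at hv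
    exact zero_ne_one hv
  -- the map
  have hcont : ContinuousAt (fun w : EE m => x - (2 * ⟪(‖w‖)⁻¹ • w, x⟫) • ((‖w‖)⁻¹ • w)) v := by
    have h1 : ContinuousAt (fun w : EE m => (‖w‖)⁻¹ • w) v := by
      refine ContinuousAt.smul (ContinuousAt.inv₀ continuous_norm.continuousAt ?_) continuousAt_id
      rw [hv]
      exact one_ne_zero
    have h2 : Continuous (fun w : EE m => x - (2 * ⟪w, x⟫) • w) := by fun_prop
    exact h2.continuousAt.comp h1
  have hgoal : x - (2 * ⟪(‖v‖)⁻¹ • v, x⟫) • ((‖v‖)⁻¹ • v) ∈ closure L := by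
    rw [mem_closure_iff_nhds]
    intro U hU
    have h1 := hcont.preimage_mem_nhds hU
    have h2 : ({0}ᶜ : Set (EE m)) ∈ 𝓝 v := isOpen_compl_singleton.mem_nhds hv0
    obtain ⟨w, ⟨hw1, hw2⟩, hw3⟩ := mem_closure_iff_nhds.1 (hdense v) _ (inter_mem h1 h2)
    have hwn : 0 < ‖w‖ := norm_pos_iff.2 hw2
    refine ⟨_, hw1, ?_⟩
    refine h.symm_smooth hsym hV hiso (v := (‖w‖)⁻¹ • w) ?_ ?_ x hx
    · rw [norm_smul, norm_inv, norm_norm, inv_mul_cancel₀ hwn.ne']
    · have hw3' : DifferentiableAt ℝ (gauge L) w := hw3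
      have e : gauge L = fun z => (‖w‖)⁻¹ * gauge L (‖w‖ • z) := by
        funext z
        rw [gauge_smul_of_nonneg hwn.le, smul_eq_mul, ← mul_assoc, inv_mul_cancel₀ hwn.ne', one_mul]
      rw [e]
      have h3 : DifferentiableAt ℝ (gauge L) (‖w‖ • (‖w‖)⁻¹ • w) := by
        rw [smul_smul, mul_inv_cancel₀ hwn.ne', one_smul]
        exact hw3'
      have h4 : DifferentiableAt ℝ (fun z : EE m => ‖w‖ • z) ((‖w‖)⁻¹ • w) := by fun_prop
      exact (h3.comp ((‖w‖)⁻¹ • w) h4).const_mul _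
  rw [hv, inv_one, one_smul, h.compact.isClosed.closure_eq] at hgoal
  exact hgoal

/-- the image of an extremal body under a linear map is extremal -/
theorem IsEq.image {L : Set (EE m)} {D : ℝ} (h : IsEq L D) (A : EE m ≃L[ℝ] EE m) :
    IsEq (A '' L) (|LinearMap.det (A.toLinearEquiv.toLinearMap)| * D) := by
  have hdet : 0 < |LinearMap.det (A.toLinearEquiv.toLinearMap)| :=
    abs_pos.2 (LinearEquiv.isUnit_det' A.toLinearEquiv).ne_zero
  refine ⟨h.compact.image A.continuous, h.convex.linear_image A.toLinearEquiv.toLinearMap, ?_, ?_,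
    ?_, mul_pos hdet h.pos⟩
  · obtain ⟨x, hx⟩ := h.int
    refine ⟨A x, ?_⟩
    have h1 : A '' interior L ⊆ interior (A '' L) :=
      interior_maximal (image_mono interior_subset) (A.toHomeomorph.isOpenMap _ isOpen_interior)
    exact h1 ⟨x, hx, rfl⟩
  · intro v hv
    choose w hw hwe using hv
    have e : v = A.toLinearEquiv.toLinearMap ∘ w := funext fun i => (hwe i).symm
    rw [e, adet, Basis.det_comp, abs_mul]
    exact mul_le_mul_of_nonneg_left (h.prop w hw) hdet.le
  · have h1 := Measure.addHaar_image_continuousLinearEquiv (volume : Measure (EE m)) A L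
    rw [h1, h.vol, ENNReal.ofReal_mul hdet.le]
    have h2 : LinearMap.det (A.toLinearEquiv.toLinearMap) =
      LinearMap.det ((A : EE m →L[ℝ] EE m) : EE m →ₗ[ℝ] EE m) := rfl
    rw [h2]
    ring

/-- **Extremal symmetric bodies are ellipsoids.** -/
theorem IsEq.ellipsoid {L : Set (EE m)} {D : ℝ} (h : IsEq L D) (hsym : ∀ x ∈ L, -x ∈ L) :
    ∃ A : EE m ≃L[ℝ] EE m, L = A '' closedBall 0 1 := by
  have hSB : Pool.Agent.Y506.KS.SB L :=
    ⟨h.compact.measurableSet, h.convex, h.compact.isBounded, hsym, h.int⟩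
  obtain ⟨A, hA, hiso, -⟩ := hSB.iso
  have h1 := h.image A
  have hsym1 : ∀ x ∈ A '' L, -x ∈ A '' L := hA.symm
  obtain ⟨ρ, hρ, hball⟩ := h1.ball hsym1 hA.volr_pos hiso
  have hρ0 : 0 < ρ := by
    rcases hρ.lt_or_eq with h2 | h2
    · exact h2
    · exfalso
      obtain ⟨x, hx⟩ := h1.int
      rw [hball, ← h2, closedBall_zero, interior_singleton] at hx
      exact hx
  let s : EE m ≃L[ℝ] EE m := ContinuousLinearEquiv.smulLeft (Units.mk0 ρ hρ0.ne')
  have hs : ∀ x, s x = ρ • x := fun x => rfl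
  refine ⟨s.trans A.symm, ?_⟩
  have e1 : closedBall (0 : EE m) ρ = s '' closedBall 0 1 := by
    ext x
    constructor
    · intro hx
      rw [mem_closedBall_zero_iff] at hx
      refine ⟨ρ⁻¹ • x, ?_, ?_⟩
      · rw [mem_closedBall_zero_iff, norm_smul, norm_inv, Real.norm_of_nonneg hρ0.le,
          inv_mul_le_iff₀ hρ0, mul_one]
        exact hx
      · rw [hs, smul_smul, mul_inv_cancel₀ hρ0.ne', one_smul]
    · rintro ⟨y, hy, rfl⟩
      rw [mem_closedBall_zero_iff] at hy ⊢
      rw [hs, norm_smul, Real.norm_of_nonneg hρ0.le]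
      nlinarith
  rw [e1] at hball
  have e2 : L = A.symm '' (A '' L) := by
    rw [image_image]
    simp
  rw [e2, hball, image_image]
  rfl

end Pool.Agent.T6.H41.MM
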